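import Pool.Agent.H166R3.HD.Hyper

set_option autoImplicit false

/-! The two degrees. -/

namespace Pool.Agent.H166R3.HD

open Pool.Agent.Helper743
open Nat.Partrec (Code)
open MeasureTheory Filter Topology
open scoped Classical ENNReal

/-- the functionals -/
def Fun : Type := {ev : List ℕ → ℕ → Option ℕ // Computable₂ ev ∧ Mono ev}

lemma countable_comp : {F : ℕ → ℕ | Computable F}.Countable := by
  have : {F : ℕ → ℕ | Computable F} ⊆
      Set.range (fun (c : Code) (n : ℕ) => if h : (c.eval n).Dom then (c.eval n).get h else 0) := by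
    intro F hF
    obtain ⟨c, hc⟩ := Code.exists_code.1 (Partrec.nat_iff.1 hF)
    refine ⟨c, ?_⟩
    funext n
    simp [hc]
  exact (Set.countable_range _).mono this

instance : Countable Fun := by
  have h := countable_comp.to_subtype
  let φ : Fun → {F : ℕ → ℕ | Computable F} := fun ev => ⟨fun z => Encodable.encode
      (ev.1 ((Encodable.decode (α := List ℕ) z.unpair.1).getD []) z.unpair.2), by
    have a1 : Computable (fun z : ℕ => (Encodable.decode (α := List ℕ) z.unpair.1).getD []) :=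
      Computable.option_getD (Computable.decode.comp (Computable.fst.comp Computable.unpair))
        (Computable.const [])
    exact Computable.encode.comp (ev.2.1.comp a1 (Computable.snd.comp Computable.unpair))⟩
  have hφ : Function.Injective φ := by
    intro ev ev' heq
    apply Subtype.ext
    funext σ x
    have h1 := congrFun (congrArg Subtype.val heq) (Nat.pair (Encodable.encode σ) x)
    simpa [φ] using h1
  exact hφ.countable

lemma exists_fun {G : ℕ → ℕ} {X : ℕ → Bool} {f : ℕ → ℕ} (h : TR f (J G X)) :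
    ∃ ev : Fun, ∀ x y, y = f x ↔ ∃ n, ev.1 (pre (J G X) n) x = some y := by
  obtain ⟨ev, h1, h2, h3⟩ := use_principle (J G X) (f : ℕ →. ℕ) h
  refine ⟨⟨ev, h1, h2⟩, fun x y => ?_⟩
  rw [← h3 x y]
  simp

lemma bound_of_good {O : Set (ℕ →. ℕ)} {G : ℕ → ℕ} {X : ℕ → Bool}
    (hX : ∀ ev : Fun, X ∈ Good O G ev.1) {f : ℕ → ℕ} (h : TR f (J G X)) :
    ∃ g : ℕ → ℕ, RecT O g ∧ ∀ x, f x ≤ g x := by
  obtain ⟨ev, hev⟩ := exists_fun h
  rcases hX ev with ⟨x, hx⟩ | ⟨g, hg, hb⟩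
  · obtain ⟨n, hn⟩ := (hev x (f x)).1 rfl
    rw [hx n] at hn
    cases hn
  · refine ⟨g, hg, fun x => ?_⟩
    obtain ⟨y, hy, hn⟩ := hb x
    rw [← (hev x y).2 hn]
    exact hy

lemma recT_empty {f : ℕ → ℕ} (h : RecT ∅ f) : Computable f := by
  have h1 : RecursiveIn ∅ (f : ℕ →. ℕ) := RecursiveIn.iff_nat.2 h
  exact recursiveIn_empty_iff.1 h1

/-- the characteristic function -/
def hat (X : ℕ → Bool) : ℕ → ℕ := fun i => (X i).toNat

/-- a hyperimmune-free diagonally noncomputable set -/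
theorem exists_P : ∃ P : ℕ → Bool,
    (∀ f : ℕ → ℕ, TR f (hat P) → ∃ g : ℕ → ℕ, Computable g ∧ ∀ n, f n ≤ g n) ∧
    ∀ e n, run n e e ≠ (P e).toNat + 1 := by
  set G0 : ℕ → ℕ := fun _ => 0 with hG0
  have hG : RecT ∅ G0 := recT_const 0
  let q0 : ℕ → Prop := fun z => ∃ e < z.unpair.1, run z.unpair.1 e e = z.unpair.2 / 2^e % 2 + 1
  have hq0 : RP ∅ q0 := by
    have h1 : RP ∅ (fun w => run w.unpair.1.unpair.1 w.unpair.2 w.unpair.2 =
        w.unpair.1.unpair.2 / 2^w.unpair.2 % 2 + 1) :=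
      RP.eq (RecT.run (RecT.fst (RecT.fst recT_id)) (RecT.snd recT_id) (RecT.snd recT_id))
        (RecT.add (RecT.mod (RecT.div (RecT.snd (RecT.fst recT_id))
          (RecT.twopow (RecT.snd recT_id))) (recT_const 2)) (recT_const 1))
    refine RP.congr (RP.bex h1 (RecT.fst recT_id)) ?_
    intro z
    simp [q0]
  have hne0 : (Cl q0).Nonempty := by
    refine ⟨fun e => decide (∃ s, run s e e = 1), ?_⟩
    rintro n ⟨e, he, h⟩
    simp only [Nat.unpair_pair] at he h
    rw [enc_bit _ he] at h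
    by_cases hs : ∃ s, run s e e = 1
    · simp only [hs, decide_true, Bool.toNat_true] at h
      obtain ⟨s, hs⟩ := hs
      have h1 := run_mono (le_max_left n s) (show 0 < run n e e by omega)
      have h2 := run_mono (le_max_right n s) (show 0 < run s e e by omega)
      omega
    · simp only [hs, decide_false, Bool.toNat_false] at h
      exact hs ⟨n, by omega⟩
  obtain ⟨P, hP0, hP⟩ := fusion
    (C := {K | ∃ q, RP ∅ q ∧ (Cl q).Nonempty ∧ K = Cl q})
    (by rintro _ ⟨q, _, h, rfl⟩; exact h) (by rintro _ ⟨q, _, _, rfl⟩; exact isClosed_Cl q)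
    (fun ev : Fun => Good ∅ G0 ev.1) (by
      rintro _ ⟨q, h1, h2, rfl⟩ ev
      obtain ⟨q', g1, g2, g3, g4⟩ := step_basis hG ev.2.1 ev.2.2 h1 h2
      exact ⟨Cl q', ⟨q', g1, g2, rfl⟩, g3, g4⟩) ⟨q0, hq0, hne0, rfl⟩
  refine ⟨P, ?_, ?_⟩
  · intro f hf
    obtain ⟨g, hg, h⟩ := bound_of_good hP (hf.trans (TR_join_right G0 (hat P)))
    exact ⟨g, recT_empty hg, h⟩
  · intro e n h
    refine hP0 (max n (e+1)) ⟨e, ?_, ?_⟩
    · simp only [Nat.unpair_pair]
      have := le_max_right n (e+1)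
      omega
    · simp only [Nat.unpair_pair]
      rw [enc_bit P (by have := le_max_right n (e+1); omega),
        run_mono (le_max_left n (e+1)) (by omega), h]

/-- a set that is hyperimmune-free over `G` and unpredictable by sections -/
theorem exists_A (G : ℕ → ℕ) : ∃ A : ℕ → Bool,
    (∀ f : ℕ → ℕ, TR f (J G A) → ∃ g : ℕ → ℕ, TR g G ∧ ∀ n, f n ≤ g n) ∧
    ∀ ev : Fun, ∀ j, A ∈ Unpred G ev.1 j := by
  have hG : RecT {(G : ℕ →. ℕ)} G := TR.refl G
  obtain ⟨A, _, hA⟩ := fusion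
    (C := {K | ∃ q, RP {(G : ℕ →. ℕ)} q ∧ 0 < cm (Cl q) ∧ K = Cl q})
    (by rintro _ ⟨q, _, h, rfl⟩; exact nonempty_of_measure_ne_zero h.ne')
    (by rintro _ ⟨q, _, _, rfl⟩; exact isClosed_Cl q)
    (fun i : Fun ⊕ (Fun × ℕ) => Sum.elim (fun ev => Good {(G : ℕ →. ℕ)} G ev.1)
      (fun p => Unpred G p.1.1 p.2) i) (by
      rintro _ ⟨q, h1, h2, rfl⟩ (ev | ⟨ev, j⟩)
      · obtain ⟨q', g1, g2, g3, g4⟩ := step_random hG ev.2.1 ev.2.2 h1 h2
        exact ⟨Cl q', ⟨q', g1, g2, rfl⟩, g3, g4⟩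
      · obtain ⟨q', g1, g2, g3, g4⟩ := step_unpred hG ev.2.1 ev.2.2 j h1 h2
        exact ⟨Cl q', ⟨q', g1, g2, rfl⟩, g3, g4⟩)
    (K0 := Cl (fun _ => False)) ⟨fun _ => False, by
      refine RP.congr (RP.lt (recT_const 0) (recT_const 0)) (fun n => by simp), by
      have : Cl (fun _ => False) = Set.univ := by ext X; simp [Cl]
      rw [this]; simp, rfl⟩
  refine ⟨A, ?_, fun ev j => hA (Sum.inr (ev, j))⟩
  intro f hf
  exact bound_of_good (fun ev => hA (Sum.inl ev)) hf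

lemma null_bc (v : ℕ → ℕ) : cm {Y | ∀ n, ∃ m ≥ n, 3 * m < 4 * disX v m Y} = 0 := by
  have h1 : ∀ m, cm {Y | 3 * m < 4 * disX v m Y} ≤ ENNReal.ofReal ((8/9)^m) := by
    intro m
    have h2 : {Y : ℕ → Bool | 3 * m < 4 * disX v m Y} = {Y | 3 * m < 4 * dis v m (enc Y m)} := by
      ext Y
      simp only [Set.mem_ofPred_eq]
      rw [disX_eq v le_rfl Y]
    rw [h2, ← ENNReal.ofReal_toReal (measure_ne_top cm _)]
    exact ENNReal.ofReal_le_ofReal (cm_dis v m)
  have h3 : ∑' m, cm {Y | 3 * m < 4 * disX v m Y} ≠ ∞ := by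
    refine ne_top_of_le_ne_top ?_ (ENNReal.tsum_le_tsum h1)
    rw [← ENNReal.ofReal_tsum_of_nonneg (fun m => by positivity)
      (summable_geometric_of_lt_one (by norm_num) (by norm_num))]
    exact ENNReal.ofReal_ne_top
  have h4 := measure_setOfPred_frequently_eq_zero h3
  refine measure_mono_null ?_ h4
  intro Y hY
  simp only [Set.mem_ofPred_eq] at hY ⊢
  rw [frequently_atTop]
  intro a
  obtain ⟨m, hm, h⟩ := hY a
  exact ⟨m, hm, h⟩

/-- the second set -/
theorem exists_B {G : ℕ → ℕ} {A : ℕ → Bool} (hA : ∀ ev : Fun, ∀ j, A ∈ Unpred G ev.1 j) :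
    ∃ B : ℕ → Bool, B ∉ (⋃ e, Fail e) ∧
      (∀ f : ℕ → ℕ, TR f (J G B) → ∃ n, ∀ m ≥ n, 4 * disX f m A ≤ 3 * m) ∧
      (∀ f : ℕ → ℕ, TR f (J G A) → ∃ n, ∀ m ≥ n, 4 * disX f m B ≤ 3 * m) := by
  set N1 : Fun → Set (ℕ → Bool) := fun ev =>
    {Y | ∃ v : ℕ → ℕ, (∀ i, ∃ t, ev.1 (pre (J G Y) t) i = some (v i)) ∧
      ∀ n, ∃ m ≥ n, 3 * m < 4 * disX v m A} with hN1
  set N2 : {f : ℕ → ℕ // TR f (J G A)} → Set (ℕ → Bool) := fun f =>
    {Y | ∀ n, ∃ m ≥ n, 3 * m < 4 * disX f.1 m Y} with hN2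
  have hcount : Countable {f : ℕ → ℕ // TR f (J G A)} := by
    choose F hF using fun f : {f : ℕ → ℕ // TR f (J G A)} => exists_fun f.2
    have : Function.Injective F := by
      intro f g h
      apply Subtype.ext
      funext x
      have h1 := hF f x (f.1 x)
      rw [h] at h1
      exact (hF g x (f.1 x)).2 (h1.1 rfl)
    exact this.countable
  have h0 : cm ((⋃ e, Fail e) ∪ (⋃ ev, N1 ev) ∪ (⋃ f, N2 f)) < 1 := by
    have z1 : cm (⋃ ev, N1 ev) = 0 :=
      measure_iUnion_null fun ev => null_of_unpred ev.2.2 (hA ev)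
    have z2 : cm (⋃ f, N2 f) = 0 := measure_iUnion_null fun f => null_bc f.1
    calc cm ((⋃ e, Fail e) ∪ (⋃ ev, N1 ev) ∪ (⋃ f, N2 f))
        ≤ cm ((⋃ e, Fail e) ∪ (⋃ ev, N1 ev)) + cm (⋃ f, N2 f) := measure_union_le _ _
      _ ≤ (cm (⋃ e, Fail e) + cm (⋃ ev, N1 ev)) + cm (⋃ f, N2 f) :=
          add_le_add (measure_union_le _ _) le_rfl
      _ ≤ 2⁻¹ := by rw [z1, z2, add_zero, add_zero]; exact fail_union
      _ < 1 := by norm_num
  have hex : ∃ B, B ∉ (⋃ e, Fail e) ∪ (⋃ ev, N1 ev) ∪ (⋃ f, N2 f) := by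
    by_contra hcon
    push Not at hcon
    have : (⋃ e, Fail e) ∪ (⋃ ev, N1 ev) ∪ (⋃ f, N2 f) = Set.univ :=
      Set.eq_univ_of_forall hcon
    rw [this] at h0
    simp at h0
  obtain ⟨B, hB⟩ := hex
  simp only [Set.mem_union, not_or] at hB
  obtain ⟨⟨h1, h2⟩, h3⟩ := hB
  refine ⟨B, h1, ?_, ?_⟩
  · intro f hf
    by_contra hcon
    push Not at hcon
    obtain ⟨ev, hev⟩ := exists_fun hf
    apply h2
    rw [Set.mem_iUnion]
    exact ⟨ev, f, fun i => (hev i (f i)).1 rfl, hcon⟩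
  · intro f hf
    by_contra hcon
    push Not at hcon
    apply h3
    rw [Set.mem_iUnion]
    exact ⟨⟨f, hf⟩, hcon⟩

/-- the join of two sets -/
def jn (P A : ℕ → Bool) : ℕ → Bool := fun n => if n % 2 = 0 then P (n/2) else A (n/2)

/-- `A` with `Z` coded on the multiples of eight -/
def mix (A Z : ℕ → Bool) : ℕ → Bool := fun n => if n % 8 = 0 then Z (n/8) else A n

lemma recT_jn {O : Set (ℕ →. ℕ)} {P A : ℕ → Bool} (hP : RecT O (hat P)) (hA : RecT O (hat A)) :
    RecT O (hat (jn P A)) := by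
  have h2 : RecT O (fun n => n / 2) := RecT.div recT_id (recT_const 2)
  refine RecT.congr (RecT.ite (RP.eq (RecT.mod recT_id (recT_const 2)) (recT_const 0))
    (RecT.comp hP h2) (RecT.comp hA h2)) ?_
  intro n
  unfold hat jn
  split_ifs <;> rfl

lemma recT_mix {O : Set (ℕ →. ℕ)} {P A : ℕ → Bool} (hP : RecT O (hat P)) (hA : RecT O (hat A)) :
    RecT O (hat (mix P A)) := by
  have h2 : RecT O (fun n => n / 8) := RecT.div recT_id (recT_const 8)
  refine RecT.congr (RecT.ite (RP.eq (RecT.mod recT_id (recT_const 8)) (recT_const 0))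
    (RecT.comp hA h2) hP) ?_
  intro n
  unfold hat mix
  split_ifs <;> rfl

lemma tr_jn_left (P A : ℕ → Bool) : TR (hat P) (hat (jn P A)) := by
  refine RecT.congr (RecT.comp (TR.refl (hat (jn P A))) (RecT.mul (recT_const 2) recT_id)) ?_
  intro n
  unfold hat jn
  simp

lemma tr_jn_right (P A : ℕ → Bool) : TR (hat A) (hat (jn P A)) := by
  refine RecT.congr (RecT.comp (TR.refl (hat (jn P A)))
    (RecT.add (RecT.mul (recT_const 2) recT_id) (recT_const 1))) ?_
  intro n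
  unfold hat jn
  have h1 : (2 * n + 1) % 2 = 1 := by omega
  have h2 : (2 * n + 1) / 2 = n := by omega
  simp [h1, h2]

lemma tr_mix (A Z : ℕ → Bool) : TR (hat Z) (hat (mix A Z)) := by
  refine RecT.congr (RecT.comp (TR.refl (hat (mix A Z))) (RecT.mul (recT_const 8) recT_id)) ?_
  intro n
  unfold hat mix
  simp

lemma card_mult (n : ℕ) : ((Finset.range n).filter (fun k => k % 8 = 0)).card = (n+7)/8 := by
  induction n with
  | zero => rfl
  | succ n ih =>
    rw [Finset.range_add_one, Finset.filter_insert]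
    by_cases h : n % 8 = 0
    · rw [if_pos h, Finset.card_insert_of_notMem (by simp), ih]; omega
    · rw [if_neg h, ih]; omega

lemma card_mix (B A Z : ℕ → Bool) (n : ℕ) :
    ((Finset.range n).filter (fun k => B k ≠ mix A Z k)).card ≤ disX (hat B) n A + (n+7)/8 := by
  rw [← card_mult n]
  unfold disX
  refine le_trans (Finset.card_le_card ?_) (Finset.card_union_le _ _)
  intro k hk
  rw [Finset.mem_filter] at hk
  rw [Finset.mem_union, Finset.mem_filter, Finset.mem_filter]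
  by_cases h : k % 8 = 0
  · right; exact ⟨hk.1, h⟩
  · left
    refine ⟨hk.1, ?_⟩
    have := hk.2
    unfold mix at this
    rw [if_neg h] at this
    unfold hat
    cases hb : B k <;> cases ha : A k <;> simp_all

lemma limsup_mix {B A Z : ℕ → Bool} (h : ∃ n, ∀ m ≥ n, 4 * disX (hat B) m A ≤ 3 * m) :
    Filter.limsup (fun n : ℕ => ((((Finset.range n).filter
      (fun k => B k ≠ mix A Z k)).card : ℝ) / (n : ℝ))) Filter.atTop ≤ 29/32 := by
  obtain ⟨n0, hn0⟩ := h
  refine Filter.limsup_le_of_le ?_ ?_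
  · refine Filter.IsCoboundedUnder.of_frequently_ge (a := 0) ?_
    exact Filter.Frequently.of_forall fun n => by positivity
  · filter_upwards [Filter.eventually_ge_atTop (max n0 64)] with n hn
    have h1 : n0 ≤ n := le_trans (le_max_left _ _) hn
    have h2 : 64 ≤ n := le_trans (le_max_right _ _) hn
    have h3 := hn0 n h1
    have h4 := card_mix B A Z n
    have h5 : 32 * ((Finset.range n).filter (fun k => B k ≠ mix A Z k)).card ≤ 29 * n := by omega
    have hpos : (0:ℝ) < n := by exact_mod_cast (by omega : 0 < n)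
    rw [div_le_iff₀ hpos]
    have h6 : (32:ℝ) * (((Finset.range n).filter (fun k => B k ≠ mix A Z k)).card : ℝ) ≤
      29 * (n:ℝ) := by exact_mod_cast h5
    linarith

/-- the two sets of the counterexample -/
theorem main : ∃ X Y : ℕ → Bool,
    (∀ f : ℕ → ℕ, TR f (hat X) → ∃ g : ℕ → ℕ, Computable g ∧ ∀ n, f n ≤ g n) ∧
    (∃ f : ℕ → ℕ, TR f (hat Y) ∧ ∀ g : ℕ → ℕ, Computable g → ∃ n, g n < f n) ∧
    (∃ f : ℕ → ℕ, TR f (hat Y) ∧ (∀ n, f n ≤ 1) ∧
      ∀ c : Nat.Partrec.Code, ∀ y : ℕ, y ∈ c.eval (Encodable.encode c) →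
        f (Encodable.encode c) ≠ y) ∧
    (∀ A' : ℕ → Bool, TR (hat A') (hat X) → ∃ B' : ℕ → Bool,
      (TR (hat B') (hat Y) ∧ TR (hat Y) (hat B')) ∧
      Filter.limsup (fun n : ℕ => ((((Finset.range n).filter
        (fun k => A' k ≠ B' k)).card : ℝ) / (n : ℝ))) Filter.atTop ≤ 29/32) ∧
    (∀ B' : ℕ → Bool, TR (hat B') (hat Y) → ∃ A' : ℕ → Bool,
      (TR (hat A') (hat X) ∧ TR (hat X) (hat A')) ∧
      Filter.limsup (fun n : ℕ => ((((Finset.range n).filter
        (fun k => A' k ≠ B' k)).card : ℝ) / (n : ℝ))) Filter.atTop ≤ 29/32) := by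
  obtain ⟨P, hP1, hP2⟩ := exists_P
  obtain ⟨A, hA1, hA2⟩ := exists_A (hat P)
  obtain ⟨B, hB1, hB2, hB3⟩ := exists_B hA2
  have hJ : ∀ Z : ℕ → Bool, TR (hat (jn P Z)) (J (hat P) Z) := fun Z =>
    recT_jn (TR_join_left (hat P) (hat Z)) (TR_join_right (hat P) (hat Z))
  refine ⟨jn P A, jn P B, ?_, ?_, ?_, ?_, ?_⟩
  · intro f hf
    obtain ⟨g, hg, h1⟩ := hA1 f (hf.trans (hJ A))
    obtain ⟨g', hg', h2⟩ := hP1 g hg
    exact ⟨g', hg', fun n => (h1 n).trans (h2 n)⟩
  · exact hyper (tr_jn_right P B) hB1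
  · refine ⟨hat P, tr_jn_left P B, fun n => Bool.toNat_le _, ?_⟩
    intro c y hy heq
    obtain ⟨s, hs⟩ := Code.evaln_complete.1 hy
    apply hP2 (Encodable.encode c) s
    unfold run
    rw [Denumerable.ofNat_encode, Option.mem_def.1 hs]
    have : (P (Encodable.encode c)).toNat = y := heq
    rw [this]; simp
  · intro A' hA'
    refine ⟨mix B (jn P B), ⟨recT_mix (tr_jn_right P B) (TR.refl _), tr_mix _ _⟩, ?_⟩
    exact limsup_mix (hB3 _ (hA'.trans (hJ A)))
  · intro B' hB'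
    refine ⟨mix A (jn P A), ⟨recT_mix (tr_jn_right P A) (TR.refl _), tr_mix _ _⟩, ?_⟩
    have := limsup_mix (Z := jn P A) (hB2 _ (hB'.trans (hJ B)))
    simp only [ne_comm (a := B' _)] at this
    exact this

end Pool.Agent.H166R3.HD
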