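import Pool.Agent.H166R3.HD.Rand

set_option autoImplicit false

/-! Half of all sets compute a function that no computable function bounds. -/

namespace Pool.Agent.H166R3.HD

open Pool.Agent.Helper743
open Nat.Partrec (Code)
open MeasureTheory Filter Topology
open scoped Classical ENNReal

/-- `s` steps of the program `e` at `x`, as a number -/
def run (s e x : ℕ) : ℕ := Encodable.encode (Code.evaln s (Denumerable.ofNat Code e) x)

lemma primrec_run : Primrec (fun z : ℕ => run z.unpair.1 z.unpair.2.unpair.1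
    z.unpair.2.unpair.2) := by
  have h1 : Primrec (fun z : ℕ => z.unpair.1) := Primrec.fst.comp Primrec.unpair
  have h2 : Primrec (fun z : ℕ => z.unpair.2) := Primrec.snd.comp Primrec.unpair
  have h3 : Primrec (fun z : ℕ => ((z.unpair.1, Denumerable.ofNat Code z.unpair.2.unpair.1),
      z.unpair.2.unpair.2)) :=
    (h1.pair ((Primrec.ofNat Code).comp (h1.comp h2))).pair (h2.comp h2)
  exact Primrec.encode.comp (Code.primrec_evaln.comp h3)

lemma RecT.run {O : Set (ℕ →. ℕ)} {s e x : ℕ → ℕ} (hs : RecT O s) (he : RecT O e)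
    (hx : RecT O x) : RecT O (fun z => run (s z) (e z) (x z)) := by
  refine RecT.congr (RecT.comp (recT_prim (O := O) primrec_run)
    (RecT.pair hs (RecT.pair he hx))) ?_
  intro z; simp

lemma RecT.enc {O : Set (ℕ →. ℕ)} {Y : ℕ → Bool} (hY : RecT O (fun i => (Y i).toNat))
    {n : ℕ → ℕ} (hn : RecT O n) : RecT O (fun z => enc Y (n z)) := by
  have hstep : RecT O (fun z => z.unpair.2.unpair.2 +
      2^z.unpair.2.unpair.1 * (Y z.unpair.2.unpair.1).toNat) :=
    RecT.add (RecT.snd (RecT.snd recT_id)) (RecT.mul (RecT.twopow (RecT.fst (RecT.snd recT_id)))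
      (RecT.comp hY (RecT.fst (RecT.snd recT_id))))
  have h := RecT.comp (RecT.prec (recT_const (O := O) 0) hstep) (RecT.pair recT_id hn)
  refine RecT.congr h ?_
  intro z
  simp only [Nat.unpair_pair]
  generalize n z = m
  induction m with
  | zero => rfl
  | succ m ih => rw [HD.enc, ← ih]

/-- the current attempt against the program `e`: its number and its argument -/
def st (e : ℕ) : ℕ → ℕ
  | 0 => Nat.pair 0 0
  | s+1 => if 0 < run s e (Nat.pair e (st e s).unpair.2) then
      Nat.pair ((st e s).unpair.1 + 1) (s+1) else st e s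

lemma RecT.st {O : Set (ℕ →. ℕ)} {e s : ℕ → ℕ} (he : RecT O e) (hs : RecT O s) :
    RecT O (fun z => st (e z) (s z)) := by
  -- z = pair e (pair s ih)
  have hih : RecT O (fun z => z.unpair.2.unpair.2) := RecT.snd (RecT.snd recT_id)
  have hss : RecT O (fun z => z.unpair.2.unpair.1) := RecT.fst (RecT.snd recT_id)
  have hee : RecT O (fun z => z.unpair.1) := RecT.fst recT_id
  have hstep : RecT O (fun z => if 0 < HD.run z.unpair.2.unpair.1 z.unpair.1
      (Nat.pair z.unpair.1 z.unpair.2.unpair.2.unpair.2) then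
      Nat.pair (z.unpair.2.unpair.2.unpair.1 + 1) (z.unpair.2.unpair.1 + 1) else
      z.unpair.2.unpair.2) :=
    RecT.ite' (RP.lt (recT_const 0) (RecT.run hss hee (RecT.pair hee (RecT.snd hih))))
      (RecT.pair (RecT.add (RecT.fst hih) (recT_const 1)) (RecT.add hss (recT_const 1))) hih
  have h := RecT.comp (RecT.prec (recT_const (O := O) (Nat.pair 0 0)) hstep) (RecT.pair he hs)
  refine RecT.congr h ?_
  intro z
  simp only [Nat.unpair_pair]
  generalize s z = m
  generalize e z = e
  induction m with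
  | zero => rfl
  | succ m ih =>
    rw [HD.st, ← ih]

lemma run_mono {s t e x : ℕ} (h : s ≤ t) (hs : 0 < run s e x) : run t e x = run s e x := by
  unfold run at hs ⊢
  cases hv : Code.evaln s (Denumerable.ofNat Code e) x with
  | none => rw [hv] at hs; simp at hs
  | some y =>
    have : y ∈ Code.evaln t (Denumerable.ofNat Code e) x := Code.evaln_mono h hv
    rw [Option.mem_def] at this
    rw [this]

/-- the program `e` diverges at `x` -/
def Dv (e x : ℕ) : Prop := ∀ s, run s e x = 0

lemma st_snd_le (e s : ℕ) : (st e s).unpair.2 ≤ s := by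
  induction s with
  | zero => simp [st]
  | succ s ih =>
    rw [st]
    split_ifs
    · simp
    · omega

lemma st_stay {e s j : ℕ} (h : st e s = Nat.pair j s) (hd : Dv e (Nat.pair e s)) (d : ℕ) :
    st e (s+d) = Nat.pair j s := by
  induction d with
  | zero => exact h
  | succ d ih =>
    rw [← Nat.add_assoc, st, ih]
    simp only [Nat.unpair_pair]
    rw [if_neg]
    rw [hd]; simp

lemma st_unique {e s j s' j' : ℕ} (h : st e s = Nat.pair j s) (hd : Dv e (Nat.pair e s))
    (h' : st e s' = Nat.pair j' s') (hd' : Dv e (Nat.pair e s')) : j = j' := by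
  rcases le_total s s' with hl | hl
  · obtain ⟨d, rfl⟩ := Nat.exists_eq_add_of_le hl
    rw [st_stay h hd d] at h'
    exact (Nat.pair_eq_pair.1 h').1
  · obtain ⟨d, rfl⟩ := Nat.exists_eq_add_of_le hl
    rw [st_stay h' hd' d] at h
    exact (Nat.pair_eq_pair.1 h).1.symm

lemma st_next {e s j : ℕ} (h : st e s = Nat.pair j s) (hd : ¬ Dv e (Nat.pair e s)) :
    ∃ s', st e s' = Nat.pair (j+1) s' := by
  by_contra hcon
  push Not at hcon
  have hstay : ∀ d, st e (s+d) = Nat.pair j s ∧ run (s+d) e (Nat.pair e s) = 0 := by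
    intro d
    induction d with
    | zero =>
      refine ⟨h, ?_⟩
      by_contra h0
      rw [Nat.add_zero] at h0
      refine hcon (s+1) ?_
      rw [st, h]
      simp only [Nat.unpair_pair]
      rw [if_pos (Nat.pos_of_ne_zero h0)]
    | succ d ih =>
      have h1 : st e (s+(d+1)) = Nat.pair j s := by
        rw [← Nat.add_assoc, st, ih.1]
        simp only [Nat.unpair_pair]
        rw [if_neg]
        rw [ih.2]; simp
      refine ⟨h1, ?_⟩
      by_contra h0
      refine hcon (s+(d+1)+1) ?_
      rw [st, h1]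
      simp only [Nat.unpair_pair]
      rw [if_pos (Nat.pos_of_ne_zero h0)]
  apply hd
  intro t
  by_contra h0
  have := run_mono (le_max_right s t) (Nat.pos_of_ne_zero h0)
  obtain ⟨d, hd'⟩ := Nat.exists_eq_add_of_le (le_max_left s t)
  rw [hd', (hstay d).2] at this
  exact h0 this.symm

lemma st_all {e : ℕ} (htot : ∀ x, ¬ Dv e x) (j : ℕ) : ∃ s, st e s = Nat.pair j s := by
  induction j with
  | zero => exact ⟨0, rfl⟩
  | succ j ih =>
    obtain ⟨s, hs⟩ := ih
    exact st_next hs (htot _)

/-- the points at which the attempt against `e` is stuck -/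
def Fail (e : ℕ) : Set (ℕ → Bool) :=
  {Y | ∃ s, st e s = Nat.pair (enc Y (e+2)) s ∧ Dv e (Nat.pair e s)}

lemma fail_measure (e : ℕ) : cm (Fail e) ≤ (2⁻¹ : ℝ≥0∞)^(e+2) := by
  by_cases h : (Fail e).Nonempty
  · obtain ⟨Y, s, h1, h2⟩ := h
    have hsub : Fail e ⊆ {Z | enc Z (e+2) = enc Y (e+2)} := by
      rintro Z ⟨s', h1', h2'⟩
      exact st_unique h1' h2' h1 h2
    refine (measure_mono hsub).trans ?_
    rw [cm_enc (enc_lt _ _)]
  · rw [Set.not_nonempty_iff_eq_empty.1 h]
    simp

lemma fail_union : cm (⋃ e, Fail e) ≤ 2⁻¹ := by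
  refine (measure_iUnion_le _).trans ?_
  refine (ENNReal.tsum_le_tsum fail_measure).trans ?_
  have : ∀ e : ℕ, (2⁻¹ : ℝ≥0∞)^(e+2) = (2⁻¹)^2 * (2⁻¹)^e := by
    intro e; rw [pow_add, mul_comm]
  rw [tsum_congr this, ENNReal.tsum_mul_left, ENNReal.tsum_geometric, ENNReal.one_sub_inv_two, inv_inv]
  rw [pow_two, mul_assoc, ENNReal.inv_mul_cancel (by norm_num) (by norm_num), mul_one]

/-- outside the stuck points there is an unbounded function -/
theorem hyper {O : Set (ℕ →. ℕ)} {Y : ℕ → Bool} (hY : RecT O (fun i => (Y i).toNat))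
    (hg : Y ∉ ⋃ e, Fail e) : ∃ f : ℕ → ℕ, RecT O f ∧
      ∀ F : ℕ → ℕ, Computable F → ∃ x, F x < f x := by
  rw [Set.mem_iUnion] at hg
  push Not at hg
  have hA : RP O (fun x => st x.unpair.1 x.unpair.2 =
      Nat.pair (enc Y (x.unpair.1 + 2)) x.unpair.2) :=
    RP.eq (RecT.st (RecT.fst recT_id) (RecT.snd recT_id))
      (RecT.pair (RecT.enc hY (RecT.add (RecT.fst recT_id) (recT_const 2))) (RecT.snd recT_id))
  have hB : RP O (fun z => ¬ (st z.unpair.1.unpair.1 z.unpair.1.unpair.2 =
      Nat.pair (enc Y (z.unpair.1.unpair.1 + 2)) z.unpair.1.unpair.2) ∨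
      0 < run z.unpair.2 z.unpair.1.unpair.1 z.unpair.1) :=
    RP.or (RP.not (RP.comp hA (RecT.fst recT_id)))
      (RP.lt (recT_const 0) (RecT.run (RecT.snd recT_id) (RecT.fst (RecT.fst recT_id))
        (RecT.fst recT_id)))
  obtain ⟨g, hg1, hg2⟩ := RecT.search hB (by
    intro x
    by_contra hcon
    push Not at hcon
    simp only [Nat.unpair_pair] at hcon
    refine hg x.unpair.1 ⟨x.unpair.2, (hcon 0).1, fun s => ?_⟩
    have := (hcon s).2
    rw [Nat.pair_unpair]
    omega)
  refine ⟨fun x => if st x.unpair.1 x.unpair.2 = Nat.pair (enc Y (x.unpair.1 + 2)) x.unpair.2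
    then run (g x) x.unpair.1 x else 0, RecT.ite' hA (RecT.run hg1 (RecT.fst recT_id) recT_id)
      (recT_const 0), ?_⟩
  intro F hF
  obtain ⟨c, hc⟩ := Code.exists_code.1 (Partrec.nat_iff.1 hF)
  set e := Encodable.encode c with he
  have hce : Denumerable.ofNat Code e = c := by rw [he, Denumerable.ofNat_encode]
  have hval : ∀ s x, 0 < run s e x → run s e x = F x + 1 := by
    intro s x h
    unfold run at h ⊢
    rw [hce] at h ⊢
    cases hv : Code.evaln s c x with
    | none => rw [hv] at h; simp at h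
    | some y =>
      have h1 : y ∈ c.eval x := Code.evaln_sound hv
      rw [hc] at h1
      simp only [PFun.coe_val, Part.mem_some_iff] at h1
      rw [h1]; simp
  have htot : ∀ x, ¬ Dv e x := by
    intro x hd
    have h1 : F x ∈ c.eval x := by rw [hc]; simp
    obtain ⟨s, hs⟩ := Code.evaln_complete.1 h1
    have := hd s
    unfold run at this
    rw [hce, Option.mem_def.1 hs] at this
    simp at this
  obtain ⟨s, hs⟩ := st_all htot (enc Y (e+2))
  refine ⟨Nat.pair e s, ?_⟩
  simp only [Nat.unpair_pair]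
  rw [if_pos hs]
  have h3 := hg2 (Nat.pair e s)
  simp only [Nat.unpair_pair] at h3
  rcases h3 with h3 | h3
  · exact absurd hs h3
  · rw [hval _ _ h3]; omega

end Pool.Agent.H166R3.HD
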