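import Pool.Agent.H166R3.HD.Step

set_option autoImplicit false

/-! Randomness: making a set hard to predict by sections. -/

namespace Pool.Agent.H166R3.HD

open Pool.Agent.Helper743
open MeasureTheory Filter Topology
open scoped Classical ENNReal

/-- the number of disagreements below `m` -/
def dis (v : ℕ → ℕ) (m k : ℕ) : ℕ :=
  ((Finset.range m).filter (fun i => ¬ (v i = 1 ↔ k / 2^i % 2 = 1))).card

lemma dis_succ (v : ℕ → ℕ) (m k : ℕ) :
    dis v (m+1) k = dis v m k + (if (v m = 1 ↔ k / 2^m % 2 = 1) then 0 else 1) := by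
  unfold dis
  rw [Finset.range_add_one, Finset.filter_insert]
  by_cases h : (v m = 1 ↔ k / 2^m % 2 = 1)
  · simp [h]
  · rw [if_pos h, if_neg h, Finset.card_insert_of_notMem (by simp)]

lemma bit_add {i m : ℕ} (h : i < m) (k : ℕ) : (2^m + k) / 2^i % 2 = k / 2^i % 2 := by
  obtain ⟨d, rfl⟩ := Nat.exists_eq_add_of_lt h
  have : 2^(i+d+1) + k = k + 2^i * (2 * 2^d) := by ring
  rw [this, Nat.add_mul_div_left _ _ (by positivity), Nat.add_mul_mod_self_left]

lemma dis_add (v : ℕ → ℕ) (m k : ℕ) : dis v m (2^m + k) = dis v m k := by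
  unfold dis
  congr 1
  apply Finset.filter_congr
  intro i hi
  rw [bit_add (Finset.mem_range.1 hi)]

lemma sum_pow_dis (v : ℕ → ℕ) (m : ℕ) : ∑ k ∈ Finset.range (2^m), 3^(dis v m k) = 4^m := by
  induction m with
  | zero => simp [dis]
  | succ m ih =>
    have h2 : 2^(m+1) = 2^m + 2^m := by ring
    rw [h2, Finset.sum_range_add]
    have e1 : ∀ k ∈ Finset.range (2^m), 3^(dis v (m+1) k) =
        3^(dis v m k) * (if v m = 1 then 3 else 1) := by
      intro k hk
      rw [Finset.mem_range] at hk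
      rw [dis_succ, Nat.div_eq_of_lt hk, pow_add]
      by_cases h : v m = 1 <;> simp [h]
    have e2 : ∀ k ∈ Finset.range (2^m), 3^(dis v (m+1) (2^m + k)) =
        3^(dis v m k) * (if v m = 1 then 1 else 3) := by
      intro k hk
      rw [Finset.mem_range] at hk
      have : (2^m + k) / 2^m = 1 := by
        rw [Nat.add_div_left _ (by positivity), Nat.div_eq_of_lt hk]
      rw [dis_succ, this, pow_add, dis_add]
      by_cases h : v m = 1 <;> simp [h]
    rw [Finset.sum_congr rfl e1, Finset.sum_congr rfl e2, ← Finset.sum_mul, ← Finset.sum_mul, ih]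
    by_cases h : v m = 1 <;> simp [h] <;> ring

lemma card_dis (v : ℕ → ℕ) (m : ℕ) :
    (((Finset.range (2^m)).filter (fun k => 3 * m < 4 * dis v m k)).card : ℝ) * (9/4)^m ≤ 4^m := by
  have h1 : ∀ k ∈ (Finset.range (2^m)).filter (fun k => 3 * m < 4 * dis v m k),
      ((9:ℝ)/4)^m ≤ 3^(dis v m k) := by
    intro k hk
    have hk' := (Finset.mem_filter.1 hk).2
    have h4 : (((9:ℝ)/4)^m)^4 ≤ (3^(dis v m k))^4 := by
      calc (((9:ℝ)/4)^m)^4 = ((9/4)^4)^m := by rw [← pow_mul, ← pow_mul, mul_comm]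
        _ ≤ (3^3)^m := by
            apply pow_le_pow_left₀ (by norm_num)
            norm_num
        _ = 3^(3*m) := by rw [pow_mul]
        _ ≤ 3^(4 * dis v m k) := pow_le_pow_right₀ (by norm_num) hk'.le
        _ = (3^(dis v m k))^4 := by rw [← pow_mul, mul_comm]
    exact le_of_pow_le_pow_left₀ (by norm_num) (by positivity) h4
  calc (((Finset.range (2^m)).filter (fun k => 3 * m < 4 * dis v m k)).card : ℝ) * (9/4)^m
      = ∑ k ∈ (Finset.range (2^m)).filter (fun k => 3 * m < 4 * dis v m k), ((9:ℝ)/4)^m := by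
        rw [Finset.sum_const, nsmul_eq_mul]
    _ ≤ ∑ k ∈ (Finset.range (2^m)).filter (fun k => 3 * m < 4 * dis v m k), (3:ℝ)^(dis v m k) :=
        Finset.sum_le_sum h1
    _ ≤ ∑ k ∈ Finset.range (2^m), (3:ℝ)^(dis v m k) :=
        Finset.sum_le_sum_of_subset_of_nonneg (Finset.filter_subset _ _)
          (fun _ _ _ => by positivity)
    _ = 4^m := by exact_mod_cast sum_pow_dis v m

lemma cm_dis (v : ℕ → ℕ) (m : ℕ) :
    cm.real {X | 3 * m < 4 * dis v m (enc X m)} ≤ (8/9)^m := by
  rw [cm_encset_real m (fun k => 3 * m < 4 * dis v m k), div_le_iff₀ (by positivity)]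
  have h := card_dis v m
  have h1 : (0:ℝ) < (9/4)^m := by positivity
  rw [← le_div_iff₀ h1] at h
  have h2 : (8/9:ℝ)^m * 2^m = 4^m / (9/4)^m := by
    rw [← div_pow, ← mul_pow]
    norm_num
  rw [h2]
  convert h

lemma dis_enc (v : ℕ → ℕ) {m t : ℕ} (h : m ≤ t) (X : ℕ → Bool) :
    dis v m (enc X t) = dis v m (enc X m) := by
  unfold dis
  congr 1
  apply Finset.filter_congr
  intro i hi
  have hi' := Finset.mem_range.1 hi
  rw [enc_bit X hi', enc_bit X (lt_of_lt_of_le hi' h)]

/-- the finite stage of the failure of prediction from level `n` on -/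
def DD (G : ℕ → ℕ) (ev : List ℕ → ℕ → Option ℕ) (n t k l : ℕ) : Prop :=
  ∃ m < t+1, n ≤ m ∧ (∀ i < m, 0 < Encodable.encode (ev (seg G t l) i)) ∧
    3 * m < 4 * dis (fun i => Encodable.encode (ev (seg G t l) i) - 1) m k

lemma dd_mono {G : ℕ → ℕ} {ev : List ℕ → ℕ → Option ℕ} (hm : Mono ev) {n t t' : ℕ} (h : t ≤ t')
    {X Y : ℕ → Bool} (hd : DD G ev n t (enc X t) (enc Y t)) :
    DD G ev n t' (enc X t') (enc Y t') := by
  obtain ⟨m, h1, h2, h3, h4⟩ := hd
  have key : ∀ i < m, ev (seg G t (enc Y t)) i = ev (seg G t' (enc Y t')) i := by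
    intro i hi
    have := h3 i hi
    cases hv : ev (seg G t (enc Y t)) i with
    | none => rw [hv] at this; simp at this
    | some y =>
      rw [seg_enc] at hv ⊢
      rw [hm _ _ _ _ (pre_prefix _ h) hv]
  refine ⟨m, by omega, h2, ?_, ?_⟩
  · intro i hi
    rw [← key i hi]; exact h3 i hi
  · rw [dis_enc _ (by omega) X] at h4 ⊢
    refine lt_of_lt_of_eq h4 ?_
    unfold dis
    congr 2
    apply Finset.filter_congr
    intro i hi
    simp only [key i (Finset.mem_range.1 hi)]

lemma dd_section {G : ℕ → ℕ} {ev : List ℕ → ℕ → Option ℕ} (n t l : ℕ) :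
    (((Finset.range (2^t)).filter (fun k => DD G ev n t k l)).card : ℝ) ≤
      2^t * (9 * (8/9)^n) := by
  have h0 : cm.real {X | DD G ev n t (enc X t) l} ≤ 9 * (8/9)^n := by
    set v := fun i => Encodable.encode (ev (seg G t l) i) - 1 with hv
    have hsub : {X : ℕ → Bool | DD G ev n t (enc X t) l} ⊆
        ⋃ m ∈ Finset.Ico n (t+1), {X | 3 * m < 4 * dis v m (enc X m)} := by
      rintro X ⟨m, h1, h2, _, h4⟩
      simp only [Set.mem_iUnion, Finset.mem_Ico]
      refine ⟨m, ⟨h2, h1⟩, ?_⟩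
      rw [dis_enc _ (by omega) X] at h4
      exact h4
    calc cm.real {X | DD G ev n t (enc X t) l}
        ≤ cm.real (⋃ m ∈ Finset.Ico n (t+1), {X | 3 * m < 4 * dis v m (enc X m)}) :=
          measureReal_mono hsub (measure_ne_top _ _)
      _ ≤ ∑ m ∈ Finset.Ico n (t+1), cm.real {X | 3 * m < 4 * dis v m (enc X m)} :=
          measureReal_biUnion_finset_le _ _
      _ ≤ ∑ m ∈ Finset.Ico n (t+1), ((8:ℝ)/9)^m := Finset.sum_le_sum fun m _ => cm_dis v m
      _ ≤ (8/9)^n / (1 - 8/9) := geom_sum_Ico_le_of_lt_one (by norm_num) (by norm_num)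
      _ = 9 * (8/9)^n := by ring
  rw [cm_encset_real t (fun k => DD G ev n t k l), div_le_iff₀ (by positivity)] at h0
  linarith

/-- the level sets to be avoided -/
def SS (G : ℕ → ℕ) (ev : List ℕ → ℕ → Option ℕ) (n j t k : ℕ) : Prop :=
  2^t < 2^j * ((Finset.range (2^t)).filter (fun l => DD G ev n t k l)).card

lemma ss_iff {G : ℕ → ℕ} {ev : List ℕ → ℕ → Option ℕ} {n j t k : ℕ} :
    SS G ev n j t k ↔ (1/2:ℝ)^j < cm.real {Y | DD G ev n t k (enc Y t)} := by
  rw [cm_encset_real t (fun l => DD G ev n t k l), lt_div_iff₀ (by positivity)]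
  unfold SS
  have h2 : (0:ℝ) < 2^j := by positivity
  rw [one_div, inv_pow, inv_mul_eq_div, div_lt_iff₀ h2]
  constructor
  · intro h
    have : ((2^t : ℕ) : ℝ) < ((2^j * ((Finset.range (2^t)).filter
      (fun l => DD G ev n t k l)).card : ℕ) : ℝ) := by exact_mod_cast h
    push_cast at this
    linarith
  · intro h
    have : ((2^t : ℕ) : ℝ) < ((2^j * ((Finset.range (2^t)).filter
      (fun l => DD G ev n t k l)).card : ℕ) : ℝ) := by
      push_cast
      linarith
    exact_mod_cast this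

lemma ss_mono {G : ℕ → ℕ} {ev : List ℕ → ℕ → Option ℕ} (hm : Mono ev) {n j t t' : ℕ} (h : t ≤ t')
    {X : ℕ → Bool} (hd : SS G ev n j t (enc X t)) : SS G ev n j t' (enc X t') := by
  rw [ss_iff] at hd ⊢
  exact lt_of_lt_of_le hd (measureReal_mono (fun Y hY => dd_mono hm h hY) (measure_ne_top _ _))

lemma ss_measure {G : ℕ → ℕ} {ev : List ℕ → ℕ → Option ℕ} (n j t : ℕ) :
    cm.real {X | SS G ev n j t (enc X t)} ≤ 2^j * (9 * (8/9)^n) := by
  rw [cm_encset_real t (fun k => SS G ev n j t k), div_le_iff₀ (by positivity)]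
  have h1 : ∑ k ∈ Finset.range (2^t), (((Finset.range (2^t)).filter
      (fun l => DD G ev n t k l)).card : ℝ) = ∑ l ∈ Finset.range (2^t),
      (((Finset.range (2^t)).filter (fun k => DD G ev n t k l)).card : ℝ) := by
    simp only [Finset.card_filter, Nat.cast_sum]
    exact Finset.sum_comm
  have h2 : ∑ k ∈ Finset.range (2^t), (((Finset.range (2^t)).filter
      (fun l => DD G ev n t k l)).card : ℝ) ≤ 2^t * (2^t * (9 * (8/9)^n)) := by
    rw [h1]
    refine (Finset.sum_le_sum fun l _ => dd_section n t l).trans ?_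
    rw [Finset.sum_const, nsmul_eq_mul]
    simp
  have h3 : (((Finset.range (2^t)).filter (fun k => SS G ev n j t k)).card : ℝ) * 2^t ≤
      2^j * ∑ k ∈ Finset.range (2^t), (((Finset.range (2^t)).filter
      (fun l => DD G ev n t k l)).card : ℝ) := by
    rw [Finset.mul_sum]
    calc (((Finset.range (2^t)).filter (fun k => SS G ev n j t k)).card : ℝ) * 2^t
        = ∑ k ∈ (Finset.range (2^t)).filter (fun k => SS G ev n j t k), (2:ℝ)^t := by
          rw [Finset.sum_const, nsmul_eq_mul]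
      _ ≤ ∑ k ∈ (Finset.range (2^t)).filter (fun k => SS G ev n j t k),
          (2:ℝ)^j * (((Finset.range (2^t)).filter (fun l => DD G ev n t k l)).card : ℝ) := by
          refine Finset.sum_le_sum fun k hk => ?_
          have := (Finset.mem_filter.1 hk).2
          unfold SS at this
          exact_mod_cast this.le
      _ ≤ _ := Finset.sum_le_sum_of_subset_of_nonneg (Finset.filter_subset _ _)
          (fun _ _ _ => by positivity)
  have h4 := h3.trans (mul_le_mul_of_nonneg_left h2 (by positivity))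
  have h5 : (0:ℝ) < 2^t := by positivity
  have h6 : (((Finset.range (2^t)).filter (fun k => SS G ev n j t k)).card : ℝ) * 2^t ≤
      (2^j * (9 * (8/9)^n) * 2^t) * 2^t := by
    refine h4.trans (le_of_eq ?_)
    ring
  exact le_of_mul_le_mul_right h6 h5

lemma rp_ss {O : Set (ℕ →. ℕ)} {G : ℕ → ℕ} (hG : RecT O G) {ev : List ℕ → ℕ → Option ℕ}
    (hev : Computable₂ ev) (n j : ℕ) : RP O (fun z => SS G ev n j z.unpair.1 z.unpair.2) := by
  -- w = pair (pair (pair (pair t k) l) m) i
  have he : RecT O (fun w => Encodable.encode (ev (seg G w.unpair.1.unpair.1.unpair.1.unpair.1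
      w.unpair.1.unpair.1.unpair.2) w.unpair.2)) :=
    RecT.ev hev (RecT.seg hG (RecT.fst (RecT.fst (RecT.fst (RecT.fst recT_id))))
      (RecT.snd (RecT.fst (RecT.fst recT_id)))) (RecT.snd recT_id)
  have hm : RecT O (fun u => u.unpair.2) := RecT.snd recT_id
  have hball : RP O (fun u => ∀ i < u.unpair.2, 0 < Encodable.encode
      (ev (seg G u.unpair.1.unpair.1.unpair.1 u.unpair.1.unpair.2) i)) := by
    refine RP.congr (RP.ball (RP.lt (recT_const 0) he) hm) ?_
    intro u; simp
  have hcount : RecT O (fun u => dis (fun i => Encodable.encode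
      (ev (seg G u.unpair.1.unpair.1.unpair.1 u.unpair.1.unpair.2) i) - 1) u.unpair.2
      u.unpair.1.unpair.1.unpair.2) := by
    have hp : RP O (fun w => ¬ ((Encodable.encode (ev (seg G
        w.unpair.1.unpair.1.unpair.1.unpair.1 w.unpair.1.unpair.1.unpair.2) w.unpair.2) - 1) = 1 ↔
        w.unpair.1.unpair.1.unpair.1.unpair.2 / 2^w.unpair.2 % 2 = 1)) :=
      RP.not (RP.iff (RP.eq (RecT.sub he (recT_const 1)) (recT_const 1))
        (RP.eq (RecT.mod (RecT.div (RecT.snd (RecT.fst (RecT.fst (RecT.fst recT_id))))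
          (RecT.twopow (RecT.snd recT_id))) (recT_const 2)) (recT_const 1)))
    refine RecT.congr (RecT.count hp hm) ?_
    intro u
    simp [dis]
  have hdd : RP O (fun a => DD G ev n a.unpair.1.unpair.1 a.unpair.1.unpair.2 a.unpair.2) := by
    have h1 := RP.and (RP.le (recT_const n) hm) (RP.and hball
      (RP.lt (RecT.mul (recT_const 3) hm) (RecT.mul (recT_const 4) hcount)))
    refine RP.congr (RP.bex h1 (RecT.add (RecT.fst (RecT.fst recT_id)) (recT_const 1))) ?_
    intro a
    simp [DD]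
  have hc := RecT.count hdd (RecT.twopow (RecT.fst recT_id))
  refine RP.congr (RP.lt (RecT.twopow (RecT.fst recT_id))
    (RecT.mul (recT_const (2^j)) hc)) ?_
  intro z
  simp [SS]

/-- the requirement -/
def Unpred (G : ℕ → ℕ) (ev : List ℕ → ℕ → Option ℕ) (j : ℕ) : Set (ℕ → Bool) :=
  {X | ∃ n, ∀ t, cm.real {Y | DD G ev n t (enc X t) (enc Y t)} ≤ (1/2:ℝ)^j}

theorem step_unpred {O : Set (ℕ →. ℕ)} {G : ℕ → ℕ} (hG : RecT O G) {ev : List ℕ → ℕ → Option ℕ}
    (hev : Computable₂ ev) (hm : Mono ev) (j : ℕ) {q : ℕ → Prop} (hq : RP O q)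
    (hpos : 0 < cm (Cl q)) :
    ∃ q' : ℕ → Prop, RP O q' ∧ 0 < cm (Cl q') ∧ Cl q' ⊆ Cl q ∧ Cl q' ⊆ Unpred G ev j := by
  have hpos' : 0 < cm.real (Cl q) := ENNReal.toReal_pos hpos.ne' (measure_ne_top _ _)
  obtain ⟨n, hn⟩ : ∃ n : ℕ, (2:ℝ)^j * (9 * (8/9)^n) < cm.real (Cl q) := by
    have h1 : (0:ℝ) < cm.real (Cl q) / (2^j * 9) := by positivity
    obtain ⟨n, hn⟩ := exists_pow_lt_of_lt_one h1 (show (8/9:ℝ) < 1 by norm_num)
    refine ⟨n, ?_⟩
    rw [lt_div_iff₀ (by positivity)] at hn
    linarith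
  refine ⟨fun z => q z ∨ SS G ev n j z.unpair.1 z.unpair.2, RP.or hq (rp_ss hG hev n j), ?_, ?_, ?_⟩
  · have hsub : Cl q ⊆ Cl (fun z => q z ∨ SS G ev n j z.unpair.1 z.unpair.2) ∪
        ⋃ t, {X | SS G ev n j t (enc X t)} := by
      intro X hX
      by_cases h : ∃ t, SS G ev n j t (enc X t)
      · right
        rw [Set.mem_iUnion]; exact h
      · left
        push Not at h
        intro t
        simp only [Nat.unpair_pair, not_or]
        exact ⟨hX t, h t⟩
    have hS : cm (⋃ t, {X | SS G ev n j t (enc X t)}) ≤ ENNReal.ofReal (2^j * (9 * (8/9)^n)) := by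
      have hmono : Monotone (fun t => {X : ℕ → Bool | SS G ev n j t (enc X t)}) :=
        fun t t' h X hX => ss_mono hm h hX
      rw [hmono.measure_iUnion]
      refine iSup_le fun t => ?_
      rw [← ENNReal.ofReal_toReal (measure_ne_top cm _)]
      exact ENNReal.ofReal_le_ofReal (ss_measure n j t)
    by_contra h0
    have h0' : cm (Cl (fun z => q z ∨ SS G ev n j z.unpair.1 z.unpair.2)) = 0 := by simpa using h0
    have h1 : cm (Cl q) ≤ ENNReal.ofReal (2^j * (9 * (8/9)^n)) := by
      refine (measure_mono hsub).trans ((measure_union_le _ _).trans ?_)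
      rw [h0', zero_add]
      exact hS
    have h2 : cm.real (Cl q) ≤ 2^j * (9 * (8/9)^n) := by
      unfold Measure.real
      refine (ENNReal.toReal_mono ENNReal.ofReal_ne_top h1).trans ?_
      rw [ENNReal.toReal_ofReal (by positivity)]
    linarith
  · intro X hX n
    exact fun h => hX n (Or.inl h)
  · intro X hX
    refine ⟨n, fun t => ?_⟩
    by_contra hcon
    push Not at hcon
    refine hX t (Or.inr ?_)
    simp only [Nat.unpair_pair]
    exact ss_iff.2 hcon

/-- number of disagreements of a number sequence with a point -/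
def disX (v : ℕ → ℕ) (m : ℕ) (X : ℕ → Bool) : ℕ :=
  ((Finset.range m).filter (fun i => ¬ (v i = 1 ↔ X i = true))).card

lemma disX_eq (v : ℕ → ℕ) {m t : ℕ} (h : m ≤ t) (X : ℕ → Bool) :
    disX v m X = dis v m (enc X t) := by
  unfold disX dis
  congr 1
  apply Finset.filter_congr
  intro i hi
  have hi' := Finset.mem_range.1 hi
  rw [enc_bit X (lt_of_lt_of_le hi' h)]
  cases X i <;> simp

lemma null_of_unpred {G : ℕ → ℕ} {ev : List ℕ → ℕ → Option ℕ} (hm : Mono ev) {X : ℕ → Bool}
    (hX : ∀ j, X ∈ Unpred G ev j) :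
    cm {Y | ∃ v : ℕ → ℕ, (∀ i, ∃ t, ev (pre (J G Y) t) i = some (v i)) ∧
      ∀ n, ∃ m ≥ n, 3 * m < 4 * disX v m X} = 0 := by
  set B := {Y : ℕ → Bool | ∃ v : ℕ → ℕ, (∀ i, ∃ t, ev (pre (J G Y) t) i = some (v i)) ∧
      ∀ n, ∃ m ≥ n, 3 * m < 4 * disX v m X} with hB
  have hle : ∀ j : ℕ, cm B ≤ ENNReal.ofReal ((1/2)^j) := by
    intro j
    obtain ⟨n, hn⟩ := hX j
    have hsub : B ⊆ ⋃ t, {Y | DD G ev n t (enc X t) (enc Y t)} := by
      rintro Y ⟨v, h1, h2⟩
      obtain ⟨m, hmn, hm4⟩ := h2 n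
      choose T hT using h1
      rw [Set.mem_iUnion]
      set t := max m ((Finset.range m).sup T) with ht
      have hkey : ∀ i < m, ev (seg G t (enc Y t)) i = some (v i) := by
        intro i hi
        rw [seg_enc]
        refine hm _ _ _ _ (pre_prefix _ ?_) (hT i)
        exact le_trans (Finset.le_sup (f := T) (Finset.mem_range.2 hi)) (le_max_right _ _)
      refine ⟨t, m, Nat.lt_succ_of_le (le_max_left _ _), hmn, ?_, ?_⟩
      · intro i hi
        rw [hkey i hi]; simp
      · rw [disX_eq v (show m ≤ t from le_max_left _ _) X] at hm4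
        refine lt_of_lt_of_eq hm4 ?_
        unfold dis
        congr 2
        apply Finset.filter_congr
        intro i hi
        simp only [hkey i (Finset.mem_range.1 hi)]
        simp
    refine (measure_mono hsub).trans ?_
    have hmono : Monotone (fun t => {Y : ℕ → Bool | DD G ev n t (enc X t) (enc Y t)}) :=
      fun t t' h Y hY => dd_mono hm h hY
    rw [hmono.measure_iUnion]
    refine iSup_le fun t => ?_
    rw [← ENNReal.ofReal_toReal (measure_ne_top cm _)]
    exact ENNReal.ofReal_le_ofReal (hn t)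
  by_contra hne
  have hpos : 0 < cm B := pos_iff_ne_zero.2 hne
  have hpos' : 0 < cm.real B := ENNReal.toReal_pos hne (measure_ne_top _ _)
  obtain ⟨j, hj⟩ := exists_pow_lt_of_lt_one hpos' (show (1/2:ℝ) < 1 by norm_num)
  have h2 : cm.real B ≤ (1/2)^j := by
    unfold Measure.real
    refine (ENNReal.toReal_mono ENNReal.ofReal_ne_top (hle j)).trans ?_
    rw [ENNReal.toReal_ofReal (by positivity)]
  linarith

end Pool.Agent.H166R3.HD
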