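import Pool.Agent.Helper743.Oracle

set_option autoImplicit false

/-! Closure properties of functions and predicates recursive in a set of oracles. -/

namespace Pool.Agent.H166R3.HD

open Pool.Agent.Helper743
open Nat.Partrec (Code)
open scoped Classical

variable {O : Set (ℕ →. ℕ)}

lemma RecT.congr {f g : ℕ → ℕ} (hf : RecT O f) (h : ∀ n, f n = g n) : RecT O g := by
  have : f = g := funext h
  subst this; exact hf

lemma recT_prim {f : ℕ → ℕ} (hf : Primrec f) : RecT O f :=
  Pool.Agent.Helper743.Computable.recT hf.to_comp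

lemma recT_id : RecT O (fun n => n) := recT_prim Primrec.id
lemma recT_const (c : ℕ) : RecT O (fun _ => c) := recT_prim (Primrec.const c)

lemma RecT.un {h : ℕ → ℕ} (hh : Primrec h) {f : ℕ → ℕ} (hf : RecT O f) :
    RecT O (fun n => h (f n)) := RecT.comp (recT_prim hh) hf

lemma RecT.bin {h : ℕ → ℕ → ℕ} (hh : Primrec₂ h) {f g : ℕ → ℕ} (hf : RecT O f)
    (hg : RecT O g) : RecT O (fun n => h (f n) (g n)) := by
  have h1 : RecT O (fun z : ℕ => h z.unpair.1 z.unpair.2) :=
    recT_prim (hh.comp (Primrec.fst.comp Primrec.unpair) (Primrec.snd.comp Primrec.unpair))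
  refine RecT.congr (RecT.comp h1 (RecT.pair hf hg)) ?_
  intro n; simp

lemma RecT.fst {f : ℕ → ℕ} (hf : RecT O f) : RecT O (fun n => (f n).unpair.1) :=
  RecT.un (Primrec.fst.comp Primrec.unpair) hf
lemma RecT.snd {f : ℕ → ℕ} (hf : RecT O f) : RecT O (fun n => (f n).unpair.2) :=
  RecT.un (Primrec.snd.comp Primrec.unpair) hf
lemma RecT.add {f g : ℕ → ℕ} (hf : RecT O f) (hg : RecT O g) : RecT O (fun n => f n + g n) :=
  RecT.bin Primrec.nat_add hf hg
lemma RecT.sub {f g : ℕ → ℕ} (hf : RecT O f) (hg : RecT O g) : RecT O (fun n => f n - g n) :=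
  RecT.bin Primrec.nat_sub hf hg
lemma RecT.mul {f g : ℕ → ℕ} (hf : RecT O f) (hg : RecT O g) : RecT O (fun n => f n * g n) :=
  RecT.bin Primrec.nat_mul hf hg
lemma RecT.div {f g : ℕ → ℕ} (hf : RecT O f) (hg : RecT O g) : RecT O (fun n => f n / g n) :=
  RecT.bin Primrec.nat_div hf hg
lemma RecT.mod {f g : ℕ → ℕ} (hf : RecT O f) (hg : RecT O g) : RecT O (fun n => f n % g n) :=
  RecT.bin Primrec.nat_mod hf hg

lemma primrec_twopow : Primrec (fun n : ℕ => 2 ^ n) := by
  have h := Primrec.nat_rec (α := ℕ) (β := ℕ) (f := fun _ => 1) (g := fun _ z => 2 * z.2)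
    (Primrec.const 1)
    (Primrec.nat_mul.comp (Primrec.const 2) (Primrec.snd.comp Primrec.snd))
  have h2 := h.comp (Primrec.const 0) Primrec.id
  refine h2.of_eq ?_
  intro n
  simp only [id]
  induction n with
  | zero => rfl
  | succ n ih => simp only [ih]; ring

lemma RecT.twopow {f : ℕ → ℕ} (hf : RecT O f) : RecT O (fun n => 2 ^ f n) :=
  RecT.un primrec_twopow hf

/-- predicates recursive in `O` -/
def RP (O : Set (ℕ →. ℕ)) (p : ℕ → Prop) : Prop := RecT O (fun n => if p n then 1 else 0)

lemma RP.congr {p q : ℕ → Prop} (hp : RP O p) (h : ∀ n, p n ↔ q n) : RP O q := by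
  have : p = q := funext fun n => propext (h n)
  subst this; exact hp

lemma RP.comp {p : ℕ → Prop} (hp : RP O p) {f : ℕ → ℕ} (hf : RecT O f) :
    RP O (fun n => p (f n)) := RecT.comp hp hf

lemma RP.not {p : ℕ → Prop} (hp : RP O p) : RP O (fun n => ¬ p n) := by
  refine RecT.congr (RecT.sub (recT_const 1) hp) ?_
  intro n
  by_cases h : p n <;> simp [h]

lemma RP.and {p q : ℕ → Prop} (hp : RP O p) (hq : RP O q) : RP O (fun n => p n ∧ q n) := by
  refine RecT.congr (RecT.mul hp hq) ?_
  intro n
  by_cases h : p n <;> by_cases h' : q n <;> simp [h, h']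

lemma RP.or {p q : ℕ → Prop} (hp : RP O p) (hq : RP O q) : RP O (fun n => p n ∨ q n) := by
  refine RP.congr (RP.not (RP.and (RP.not hp) (RP.not hq))) ?_
  intro n; tauto

lemma RP.le {f g : ℕ → ℕ} (hf : RecT O f) (hg : RecT O g) : RP O (fun n => f n ≤ g n) := by
  have h : Primrec₂ (fun a b : ℕ => if a ≤ b then 1 else 0) :=
    Primrec.ite Primrec.nat_le (Primrec.const 1) (Primrec.const 0)
  refine RecT.congr (RecT.bin h hf hg) ?_
  intro n; congr

lemma RP.lt {f g : ℕ → ℕ} (hf : RecT O f) (hg : RecT O g) : RP O (fun n => f n < g n) :=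
  RP.congr (RP.not (RP.le hg hf)) (fun n => by simp)

lemma RP.eq {f g : ℕ → ℕ} (hf : RecT O f) (hg : RecT O g) : RP O (fun n => f n = g n) :=
  RP.congr (RP.and (RP.le hf hg) (RP.le hg hf)) (fun n => by omega)

lemma RP.iff {p q : ℕ → Prop} (hp : RP O p) (hq : RP O q) : RP O (fun n => (p n ↔ q n)) := by
  refine RP.congr (RP.or (RP.and hp hq) (RP.and (RP.not hp) (RP.not hq))) ?_
  intro n; tauto

lemma RecT.ite {p : ℕ → Prop} {f g : ℕ → ℕ} (hp : RP O p) (hf : RecT O f) (hg : RecT O g) :
    RecT O (fun n => if p n then f n else g n) := by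
  have hn := RP.not hp
  refine RecT.congr (RecT.add (RecT.mul hp hf) (RecT.mul hn hg)) ?_
  intro n
  by_cases h : p n <;> simp [h]

lemma RecT.ite' {p : ℕ → Prop} {inst : ∀ n, Decidable (p n)} {f g : ℕ → ℕ} (hp : RP O p)
    (hf : RecT O f) (hg : RecT O g) :
    RecT O (fun n => @_root_.ite ℕ (p n) (inst n) (f n) (g n)) := by
  refine RecT.congr (RecT.ite hp hf hg) ?_
  intro n
  by_cases h : p n <;> simp [h]

lemma RecT.count {p : ℕ → Prop} {b : ℕ → ℕ} (hp : RP O p) (hb : RecT O b) :
    RecT O (fun n => ((Finset.range (b n)).filter (fun i => p (Nat.pair n i))).card) := by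
  have hstep : RecT O (fun z => z.unpair.2.unpair.2 +
      (if p (Nat.pair z.unpair.1 z.unpair.2.unpair.1) then 1 else 0)) := by
    refine RecT.add (RecT.snd (RecT.snd recT_id)) ?_
    exact RP.comp hp (RecT.pair (RecT.fst recT_id) (RecT.fst (RecT.snd recT_id)))
  have h := RecT.prec (recT_const (O := O) 0) hstep
  have h2 := RecT.comp h (RecT.pair recT_id hb)
  refine RecT.congr h2 ?_
  intro n
  simp only [Nat.unpair_pair]
  generalize b n = m
  induction m with
  | zero => simp
  | succ m ih =>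
    rw [Finset.range_add_one, Finset.filter_insert]
    by_cases h : p (Nat.pair n m)
    · simp only [h, if_true, ih]
      rw [Finset.card_insert_of_notMem (by simp)]
    · simp only [h, if_false, ih]
      simp

lemma RP.bex {p : ℕ → Prop} {b : ℕ → ℕ} (hp : RP O p) (hb : RecT O b) :
    RP O (fun n => ∃ i < b n, p (Nat.pair n i)) := by
  refine RP.congr (RP.not (RP.eq (RecT.count hp hb) (recT_const 0))) ?_
  intro n
  rw [Finset.card_eq_zero, Finset.filter_eq_empty_iff]
  simp

lemma RP.ball {p : ℕ → Prop} {b : ℕ → ℕ} (hp : RP O p) (hb : RecT O b) :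
    RP O (fun n => ∀ i < b n, p (Nat.pair n i)) := by
  refine RP.congr (RP.not (RP.bex (RP.not hp) hb)) ?_
  intro n; simp

/-- search -/
lemma RecT.search {p : ℕ → Prop} (hp : RP O p) (hex : ∀ a, ∃ n, p (Nat.pair a n)) :
    ∃ g : ℕ → ℕ, RecT O g ∧ ∀ a, p (Nat.pair a (g a)) := by
  have h : RecT O (fun n => if p n then 0 else 1) :=
    RecT.congr (RP.not hp) (fun n => by by_cases h : p n <;> simp [h])
  have hex' : ∀ a, ∃ n, (if p (Nat.pair a n) then 0 else 1) = 0 := by
    intro a
    obtain ⟨n, hn⟩ := hex a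
    exact ⟨n, by simp [hn]⟩
  refine ⟨_, RecT.find (p := fun n => if p n then 0 else 1) h hex', ?_⟩
  intro a
  have := Nat.find_spec (hex' a)
  simpa using this

lemma RecT.list {H b : ℕ → ℕ} (hH : RecT O H) (hb : RecT O b) :
    RecT O (fun z => Encodable.encode ((List.range (b z)).map (fun i => H (Nat.pair z i)))) := by
  have hstep : Primrec (fun z : ℕ => Encodable.encode
      (((Encodable.decode (α := List ℕ) z.unpair.1).getD []) ++ [z.unpair.2])) := by
    have h1 : Primrec (fun z : ℕ => (Encodable.decode (α := List ℕ) z.unpair.1).getD []) :=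
      Primrec.option_getD.comp (Primrec.decode.comp (Primrec.fst.comp Primrec.unpair))
        (Primrec.const [])
    exact Primrec.encode.comp
      (Primrec.list_concat.comp h1 (Primrec.snd.comp Primrec.unpair))
  have h1 : RecT O (fun z => Nat.pair z.unpair.2.unpair.2
      (H (Nat.pair z.unpair.1 z.unpair.2.unpair.1))) :=
    RecT.pair (RecT.snd (RecT.snd recT_id))
      (RecT.comp hH (RecT.pair (RecT.fst recT_id) (RecT.fst (RecT.snd recT_id))))
  have h2 := RecT.comp (recT_prim (O := O) hstep) h1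
  have h3 := RecT.prec (recT_const (O := O) (Encodable.encode ([] : List ℕ))) h2
  have h4 := RecT.comp h3 (RecT.pair recT_id hb)
  refine RecT.congr h4 ?_
  intro n
  simp only [Nat.unpair_pair]
  generalize b n = m
  induction m with
  | zero => rfl
  | succ m ih =>
    rw [List.range_succ, List.map_append]
    simp only [ih]
    simp

lemma RecT.ev {ev : List ℕ → ℕ → Option ℕ} (hev : Computable₂ ev) {L : ℕ → List ℕ} {x : ℕ → ℕ}
    (hL : RecT O (fun z => Encodable.encode (L z))) (hx : RecT O x) :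
    RecT O (fun z => Encodable.encode (ev (L z) (x z))) := by
  have h1 : Computable (fun z : ℕ => Encodable.encode
      (ev ((Encodable.decode (α := List ℕ) z.unpair.1).getD []) z.unpair.2)) := by
    have a1 : Computable (fun z : ℕ => (Encodable.decode (α := List ℕ) z.unpair.1).getD []) :=
      Computable.option_getD (Computable.decode.comp (Computable.fst.comp Computable.unpair))
        (Computable.const [])
    exact Computable.encode.comp (hev.comp a1 (Computable.snd.comp Computable.unpair))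
  refine RecT.congr (RecT.comp (Pool.Agent.Helper743.Computable.recT (O := O) h1)
    (RecT.pair hL hx)) ?_
  intro z
  simp

end Pool.Agent.H166R3.HD
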