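import Pool.Agent.H166R3.HD.Rec

set_option autoImplicit false

/-! Cantor space: codes of initial segments, the uniform measure, effectively closed classes. -/

namespace Pool.Agent.H166R3.HD

open Pool.Agent.Helper743
open MeasureTheory
open scoped Classical ENNReal

/-- the number coding the first `n` bits of `X` -/
def enc (X : ℕ → Bool) : ℕ → ℕ
  | 0 => 0
  | n+1 => enc X n + 2^n * (X n).toNat

lemma enc_lt (X : ℕ → Bool) (n : ℕ) : enc X n < 2^n := by
  induction n with
  | zero => simp [enc]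
  | succ n ih =>
    have : (X n).toNat ≤ 1 := Bool.toNat_le _
    rw [enc, pow_succ]
    nlinarith

lemma enc_mod (X : ℕ → Bool) {m n : ℕ} (h : m ≤ n) : enc X n % 2^m = enc X m := by
  induction n with
  | zero =>
    have : m = 0 := by omega
    subst this; simp [enc]
  | succ n ih =>
    rcases Nat.lt_or_ge n m with h1 | h1
    · have : m = n+1 := by omega
      subst this
      exact Nat.mod_eq_of_lt (enc_lt X _)
    · rw [enc, Nat.add_mod]
      have : 2^n * (X n).toNat % 2^m = 0 := by
        obtain ⟨d, rfl⟩ := Nat.exists_eq_add_of_le h1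
        rw [pow_add, mul_assoc]
        exact Nat.mul_mod_right _ _
      rw [this, Nat.add_zero, Nat.mod_mod, ih h1]

lemma enc_bit (X : ℕ → Bool) {i n : ℕ} (h : i < n) : enc X n / 2^i % 2 = (X i).toNat := by
  have h1 : enc X n / 2^i % 2 = (enc X n % 2^(i+1)) / 2^i := by
    rw [pow_succ, Nat.mod_mul_right_div_self]
  rw [h1, enc_mod X (by omega), enc]
  rw [Nat.add_mul_div_left _ _ (by positivity), Nat.div_eq_of_lt (enc_lt X i)]
  simp

lemma enc_congr {X Y : ℕ → Bool} {n : ℕ} (h : ∀ i < n, X i = Y i) : enc X n = enc Y n := by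
  induction n with
  | zero => rfl
  | succ n ih => rw [enc, enc, ih (fun i hi => h i (by omega)), h n (by omega)]

lemma enc_eq_iff {X Y : ℕ → Bool} {n : ℕ} : enc X n = enc Y n ↔ ∀ i < n, X i = Y i := by
  refine ⟨fun h i hi => ?_, enc_congr⟩
  have h1 := enc_bit X hi
  rw [h, enc_bit Y hi] at h1
  cases hx : X i <;> cases hy : Y i <;> simp_all

/-- the point with given code -/
def dec (k : ℕ) : ℕ → Bool := fun i => decide (k / 2^i % 2 = 1)

lemma enc_dec {n k : ℕ} (h : k < 2^n) : enc (dec k) n = k := by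
  have key : ∀ m, enc (dec k) m = k % 2^m := by
    intro m
    induction m with
    | zero => simp [enc, Nat.mod_one]
    | succ m ih =>
      rw [enc, ih, pow_succ, Nat.mod_mul]
      congr 2
      unfold dec
      rcases Nat.mod_two_eq_zero_or_one (k / 2^m) with h | h <;> simp [h]
  rw [key, Nat.mod_eq_of_lt h]

/-- oracle segments -/
def seg (G : ℕ → ℕ) (n k : ℕ) : List ℕ :=
  (List.range n).map (fun i => Nat.pair (G i) (k / 2^i % 2))

/-- the oracle `G ⊕ X` -/
def J (G : ℕ → ℕ) (X : ℕ → Bool) : ℕ → ℕ := join G (fun i => (X i).toNat)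

lemma seg_enc (G : ℕ → ℕ) (X : ℕ → Bool) (n : ℕ) : seg G n (enc X n) = pre (J G X) n := by
  unfold seg pre
  apply List.map_congr_left
  intro i hi
  rw [List.mem_range] at hi
  rw [enc_bit X hi]
  rfl

lemma RecT.seg {O : Set (ℕ →. ℕ)} {G : ℕ → ℕ} (hG : RecT O G) {n k : ℕ → ℕ} (hn : RecT O n)
    (hk : RecT O k) : RecT O (fun z => Encodable.encode (seg G (n z) (k z))) := by
  have h1 : RecT O (fun w => Nat.pair (G w.unpair.2) (k w.unpair.1 / 2^w.unpair.2 % 2)) :=
    RecT.pair (RecT.comp hG (RecT.snd recT_id))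
      (RecT.mod (RecT.div (RecT.comp hk (RecT.fst recT_id)) (RecT.twopow (RecT.snd recT_id)))
        (recT_const 2))
  refine RecT.congr (RecT.list h1 hn) ?_
  intro z
  simp [HD.seg]

lemma continuous_enc (n : ℕ) : Continuous (fun X : ℕ → Bool => enc X n) := by
  induction n with
  | zero => exact continuous_const
  | succ n ih =>
    have h1 : Continuous (fun X : ℕ → Bool => (X n).toNat) :=
      (continuous_of_discreteTopology (f := fun b : Bool => b.toNat)).comp (continuous_apply n)
    exact ih.add (continuous_const.mul h1)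

lemma measurable_enc (n : ℕ) : Measurable (fun X : ℕ → Bool => enc X n) := by
  induction n with
  | zero => exact measurable_const
  | succ n ih =>
    have h1 : Measurable (fun X : ℕ → Bool => (X n).toNat) :=
      (measurable_of_countable (fun b : Bool => b.toNat)).comp (measurable_pi_apply n)
    exact ih.add (measurable_const.mul h1)

lemma isClosed_encset (n : ℕ) (T : ℕ → Prop) : IsClosed {X : ℕ → Bool | T (enc X n)} :=
  (isClosed_discrete {k | T k}).preimage (continuous_enc n)

lemma isOpen_encset (n : ℕ) (T : ℕ → Prop) : IsOpen {X : ℕ → Bool | T (enc X n)} :=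
  (isOpen_discrete {k | T k}).preimage (continuous_enc n)

lemma meas_encset (n : ℕ) (T : ℕ → Prop) : MeasurableSet {X : ℕ → Bool | T (enc X n)} :=
  measurable_enc n (MeasurableSet.of_discrete (s := {k | T k}))

/-- the uniform measure on Cantor space -/
noncomputable def cm : Measure (ℕ → Bool) :=
  Measure.infinitePi (fun _ => (PMF.uniformOfFintype Bool).toMeasure)

instance : IsProbabilityMeasure cm := by unfold cm; infer_instance

lemma unif_singleton (b : Bool) : (PMF.uniformOfFintype Bool).toMeasure {b} = 2⁻¹ := by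
  rw [PMF.toMeasure_apply_singleton _ _ (MeasurableSet.of_discrete)]
  simp

lemma cm_enc {n k : ℕ} (h : k < 2^n) : cm {X | enc X n = k} = (2⁻¹ : ℝ≥0∞)^n := by
  have h1 : {X : ℕ → Bool | enc X n = k} =
      Set.pi (Finset.range n : Set ℕ) (fun i => {dec k i}) := by
    ext X
    simp only [Set.mem_ofPred_eq, Set.mem_pi, Finset.coe_range, Set.mem_Iio, Set.mem_singleton_iff]
    rw [← enc_eq_iff, enc_dec h]
  rw [h1]
  unfold cm
  rw [Measure.infinitePi_pi]
  · simp
  · intro i hi
    exact MeasurableSet.of_discrete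

lemma cm_encset (n : ℕ) (T : ℕ → Prop) :
    cm {X | T (enc X n)} = (((Finset.range (2^n)).filter T).card : ℝ≥0∞) * (2⁻¹ : ℝ≥0∞)^n := by
  have h1 : {X : ℕ → Bool | T (enc X n)} =
      ⋃ k ∈ (Finset.range (2^n)).filter T, {X | enc X n = k} := by
    ext X
    simp only [Set.mem_ofPred_eq, Set.mem_iUnion, Finset.mem_filter, Finset.mem_range]
    constructor
    · intro h
      exact ⟨enc X n, ⟨enc_lt X n, h⟩, rfl⟩
    · rintro ⟨k, ⟨_, h2⟩, h3⟩
      rw [h3]; exact h2
  rw [h1, measure_biUnion_finset]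
  · rw [Finset.sum_congr rfl (fun k hk => cm_enc (by
      have := (Finset.mem_filter.1 hk).1
      exact Finset.mem_range.1 this))]
    simp
  · intro a _ b _ hab
    refine Set.disjoint_left.2 ?_
    intro X h1 h2
    exact hab (h1.symm.trans h2)
  · intro k _
    exact meas_encset n (fun m => m = k)

lemma cm_encset_real (n : ℕ) (T : ℕ → Prop) :
    cm.real {X | T (enc X n)} = (((Finset.range (2^n)).filter T).card : ℝ) / 2^n := by
  unfold Measure.real
  rw [cm_encset]
  simp [div_eq_mul_inv]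

/-- the class of the points no initial segment of which satisfies `q` -/
def Cl (q : ℕ → Prop) : Set (ℕ → Bool) := {X | ∀ n, ¬ q (Nat.pair n (enc X n))}

lemma Cl_eq (q : ℕ → Prop) : Cl q = ⋂ n, {X | ¬ q (Nat.pair n (enc X n))} := by
  ext X; simp [Cl]

lemma isClosed_Cl (q : ℕ → Prop) : IsClosed (Cl q) := by
  rw [Cl_eq]
  exact isClosed_iInter fun n => isClosed_encset n (fun k => ¬ q (Nat.pair n k))

lemma meas_Cl (q : ℕ → Prop) : MeasurableSet (Cl q) := by
  rw [Cl_eq]
  exact MeasurableSet.iInter fun n => meas_encset n (fun k => ¬ q (Nat.pair n k))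

/-- fusion -/
theorem fusion {C : Set (Set (ℕ → Bool))} (hne : ∀ K ∈ C, K.Nonempty) (hcl : ∀ K ∈ C, IsClosed K)
    {ι : Type*} [Countable ι] (Req : ι → Set (ℕ → Bool))
    (hstep : ∀ K ∈ C, ∀ i, ∃ K' ∈ C, K' ⊆ K ∧ K' ⊆ Req i) {K0 : Set (ℕ → Bool)} (h0 : K0 ∈ C) :
    ∃ X ∈ K0, ∀ i, X ∈ Req i := by
  rcases isEmpty_or_nonempty ι with hι | hι
  · obtain ⟨X, hX⟩ := hne K0 h0
    exact ⟨X, hX, fun i => (hι.false i).elim⟩
  · obtain ⟨e, he⟩ := exists_surjective_nat ι
    choose! nx h1 h2 h3 using hstep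
    let s : ℕ → C := fun n => Nat.rec ⟨K0, h0⟩
      (fun n K => ⟨nx K.1 (e n), h1 K.1 K.2 (e n)⟩) n
    have hs : ∀ n, (s (n+1)).1 = nx (s n).1 (e n) := fun n => rfl
    have hnonempty := IsCompact.nonempty_iInter_of_sequence_nonempty_isCompact_isClosed
      (fun n => (s n).1) (fun n => by
        show (s (n+1)).1 ⊆ (s n).1
        rw [hs]; exact h2 _ (s n).2 _) (fun n => hne _ (s n).2)
      ((hcl _ (s 0).2).isCompact) (fun n => hcl _ (s n).2)
    obtain ⟨X, hX⟩ := hnonempty
    rw [Set.mem_iInter] at hX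
    refine ⟨X, hX 0, fun i => ?_⟩
    obtain ⟨n, rfl⟩ := he i
    have := hX (n+1)
    rw [hs] at this
    exact h3 _ (s n).2 _ this

end Pool.Agent.H166R3.HD
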