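import Pool.Agent.H166R3.HD.Space

set_option autoImplicit false

/-! Forcing totality with a bound, inside effectively closed classes. -/

namespace Pool.Agent.H166R3.HD

open Pool.Agent.Helper743
open MeasureTheory Filter Topology
open scoped Classical ENNReal

/-- monotone word functions -/
def Mono (ev : List ℕ → ℕ → Option ℕ) : Prop :=
  ∀ σ τ x y, σ <+: τ → ev σ x = some y → ev τ x = some y

/-- `k` codes a string of length `s` that is alive and on which `ev` has no value `≤ s` at `x` -/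
def Bad (G : ℕ → ℕ) (ev : List ℕ → ℕ → Option ℕ) (q : ℕ → Prop) (x s k : ℕ) : Prop :=
  (∀ n < s+1, ¬ q (Nat.pair n (k % 2^n))) ∧ ¬ ∃ y ≤ s, ev (seg G s k) x = some y

lemma encode_opt (o : Option ℕ) (s : ℕ) : (∃ y ≤ s, o = some y) ↔
    (0 < Encodable.encode o ∧ Encodable.encode o ≤ s + 1) := by
  cases o with
  | none => simp
  | some y => simp

lemma rp_ev {O : Set (ℕ →. ℕ)} {G : ℕ → ℕ} (hG : RecT O G) {ev : List ℕ → ℕ → Option ℕ}
    (hev : Computable₂ ev) {n k x s : ℕ → ℕ} (hn : RecT O n) (hk : RecT O k) (hx : RecT O x)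
    (hs : RecT O s) : RP O (fun z => ∃ y ≤ s z, ev (seg G (n z) (k z)) (x z) = some y) := by
  have h1 := RecT.ev hev (RecT.seg hG hn hk) hx
  refine RP.congr (RP.and (RP.lt (recT_const 0) h1) (RP.le h1 (RecT.add hs (recT_const 1)))) ?_
  intro z
  exact (encode_opt _ _).symm

lemma rp_bad {O : Set (ℕ →. ℕ)} {G : ℕ → ℕ} (hG : RecT O G) {ev : List ℕ → ℕ → Option ℕ}
    (hev : Computable₂ ev) {q : ℕ → Prop} (hq : RP O q) :
    RP O (fun z => Bad G ev q z.unpair.1.unpair.1 z.unpair.1.unpair.2 z.unpair.2) := by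
  have hs : RecT O (fun z => z.unpair.1.unpair.2) := RecT.snd (RecT.fst recT_id)
  have hx : RecT O (fun z => z.unpair.1.unpair.1) := RecT.fst (RecT.fst recT_id)
  have hk : RecT O (fun z => z.unpair.2) := RecT.snd recT_id
  refine RP.and ?_ (RP.not (rp_ev hG hev hs hk hx hs))
  have h1 : RP O (fun w => ¬ q (Nat.pair w.unpair.2 (w.unpair.1.unpair.2 % 2^w.unpair.2))) :=
    RP.not (RP.comp hq (RecT.pair (RecT.snd recT_id)
      (RecT.mod (RecT.snd (RecT.fst recT_id)) (RecT.twopow (RecT.snd recT_id)))))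
  refine RP.congr (RP.ball h1 (RecT.add hs (recT_const 1))) ?_
  intro z
  simp

lemma rec_cnt {O : Set (ℕ →. ℕ)} {G : ℕ → ℕ} (hG : RecT O G) {ev : List ℕ → ℕ → Option ℕ}
    (hev : Computable₂ ev) {q : ℕ → Prop} (hq : RP O q) :
    RecT O (fun a => ((Finset.range (2^a.unpair.2)).filter
      (fun k => Bad G ev q a.unpair.1 a.unpair.2 k)).card) := by
  refine RecT.congr (RecT.count (rp_bad hG hev hq) (RecT.twopow (RecT.snd recT_id))) ?_
  intro a
  simp

/-- the bounding function -/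
lemma bound_fun {O : Set (ℕ →. ℕ)} {G : ℕ → ℕ} (hG : RecT O G) {ev : List ℕ → ℕ → Option ℕ}
    (hev : Computable₂ ev) {q : ℕ → Prop} (hq : RP O q) (j : ℕ)
    (hex : ∀ x, ∃ s, ((Finset.range (2^s)).filter (fun k => Bad G ev q x s k)).card *
      2^(j+x+1) < 2^s) :
    ∃ g : ℕ → ℕ, RecT O g ∧ ∀ x, ((Finset.range (2^(g x))).filter
      (fun k => Bad G ev q x (g x) k)).card * 2^(j+x+1) < 2^(g x) := by
  have hp : RP O (fun a => ((Finset.range (2^a.unpair.2)).filter
      (fun k => Bad G ev q a.unpair.1 a.unpair.2 k)).card * 2^(j+a.unpair.1+1) <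
      2^a.unpair.2) :=
    RP.lt (RecT.mul (rec_cnt hG hev hq) (RecT.twopow (RecT.add (RecT.add (recT_const j)
      (RecT.fst recT_id)) (recT_const 1)))) (RecT.twopow (RecT.snd recT_id))
  obtain ⟨g, hg, h⟩ := RecT.search hp (by
    intro a
    obtain ⟨s, hs⟩ := hex a
    exact ⟨s, by simpa using hs⟩)
  exact ⟨g, hg, fun x => by simpa using h x⟩

lemma bad_enc {G : ℕ → ℕ} {ev : List ℕ → ℕ → Option ℕ} {q : ℕ → Prop} {x s : ℕ}
    {X : ℕ → Bool} : Bad G ev q x s (enc X s) ↔
      (∀ n < s+1, ¬ q (Nat.pair n (enc X n))) ∧ ¬ ∃ y ≤ s, ev (pre (J G X) s) x = some y := by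
  unfold Bad
  rw [seg_enc]
  refine and_congr_left' ?_
  refine forall₂_congr fun n hn => ?_
  rw [enc_mod X (by omega)]

lemma bad_anti {G : ℕ → ℕ} {ev : List ℕ → ℕ → Option ℕ} (hm : Mono ev) {q : ℕ → Prop} {x : ℕ}
    {s t : ℕ} (hst : s ≤ t) {X : ℕ → Bool} (h : Bad G ev q x t (enc X t)) :
    Bad G ev q x s (enc X s) := by
  rw [bad_enc] at h ⊢
  refine ⟨fun n hn => h.1 n (by omega), ?_⟩
  rintro ⟨y, hy, h2⟩
  exact h.2 ⟨y, by omega, hm _ _ _ _ (pre_prefix _ hst) h2⟩

/-- the points of the class at which `ev` diverges at `x` -/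
def Div (G : ℕ → ℕ) (ev : List ℕ → ℕ → Option ℕ) (q : ℕ → Prop) (x : ℕ) : Set (ℕ → Bool) :=
  {X | X ∈ Cl q ∧ ∀ n, ev (pre (J G X) n) x = none}

lemma iInter_bad {G : ℕ → ℕ} {ev : List ℕ → ℕ → Option ℕ} (hm : Mono ev) {q : ℕ → Prop} {x : ℕ} :
    (⋂ s, {X : ℕ → Bool | Bad G ev q x s (enc X s)}) = Div G ev q x := by
  ext X
  simp only [Set.mem_iInter, Set.mem_ofPred_eq, Div, Cl]
  constructor
  · intro h
    refine ⟨fun n => (bad_enc.1 (h n)).1 n (by omega), fun n => ?_⟩
    by_contra hcon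
    obtain ⟨y, hy⟩ := Option.ne_none_iff_exists'.1 hcon
    refine (bad_enc.1 (h (max n y))).2 ⟨y, le_max_right _ _, ?_⟩
    exact hm _ _ _ _ (pre_prefix _ (le_max_left _ _)) hy
  · rintro ⟨h1, h2⟩ s
    rw [bad_enc]
    refine ⟨fun n _ => h1 n, ?_⟩
    rintro ⟨y, _, h⟩
    rw [h2 s] at h
    cases h

/-- the divergence class as a class -/
lemma div_cl {O : Set (ℕ →. ℕ)} {G : ℕ → ℕ} (hG : RecT O G) {ev : List ℕ → ℕ → Option ℕ}
    (hev : Computable₂ ev) {q : ℕ → Prop} (hq : RP O q) (x : ℕ) :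
    ∃ q' : ℕ → Prop, RP O q' ∧ Cl q' = Div G ev q x := by
  refine ⟨fun z => q z ∨ 0 < Encodable.encode (ev (seg G z.unpair.1 z.unpair.2) x),
    RP.or hq (RP.lt (recT_const 0) (RecT.ev hev (RecT.seg hG (RecT.fst recT_id)
      (RecT.snd recT_id)) (recT_const x))), ?_⟩
  ext X
  simp only [Cl, Div, Set.mem_ofPred_eq, not_or, Nat.unpair_pair, seg_enc]
  constructor
  · intro h
    refine ⟨fun n => (h n).1, fun n => ?_⟩
    by_contra hcon
    obtain ⟨y, hy⟩ := Option.ne_none_iff_exists'.1 hcon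
    have := (h n).2
    rw [hy] at this
    simp at this
  · rintro ⟨h1, h2⟩ n
    refine ⟨h1 n, ?_⟩
    rw [h2 n]; simp

/-- what a step achieves -/
def Good (O : Set (ℕ →. ℕ)) (G : ℕ → ℕ) (ev : List ℕ → ℕ → Option ℕ) : Set (ℕ → Bool) :=
  {X | (∃ x, ∀ n, ev (pre (J G X) n) x = none) ∨
    ∃ g : ℕ → ℕ, RecT O g ∧ ∀ x, ∃ y ≤ g x, ∃ n, ev (pre (J G X) n) x = some y}

theorem step_basis {O : Set (ℕ →. ℕ)} {G : ℕ → ℕ} (hG : RecT O G) {ev : List ℕ → ℕ → Option ℕ}
    (hev : Computable₂ ev) (hm : Mono ev) {q : ℕ → Prop} (hq : RP O q) (hne : (Cl q).Nonempty) :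
    ∃ q' : ℕ → Prop, RP O q' ∧ (Cl q').Nonempty ∧ Cl q' ⊆ Cl q ∧ Cl q' ⊆ Good O G ev := by
  by_cases hd : ∃ x, (Div G ev q x).Nonempty
  · obtain ⟨x, hx⟩ := hd
    obtain ⟨q', h1, h2⟩ := div_cl hG hev hq x
    rw [← h2] at hx
    refine ⟨q', h1, hx, ?_, ?_⟩
    · rw [h2]; exact fun X hX => hX.1
    · rw [h2]; exact fun X hX => Or.inl ⟨x, hX.2⟩
  · push Not at hd
    -- in the nonempty case we search directly for emptiness
    have hp : RP O (fun a => ((Finset.range (2^a.unpair.2)).filter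
      (fun k => Bad G ev q a.unpair.1 a.unpair.2 k)).card = 0) :=
      RP.eq (rec_cnt hG hev hq) (recT_const 0)
    have hex0 : ∀ x, ∃ s, ((Finset.range (2^s)).filter (fun k => Bad G ev q x s k)).card = 0 := by
      intro x
      by_contra hcon
      push Not at hcon
      have hne : ∀ s, {X : ℕ → Bool | Bad G ev q x s (enc X s)}.Nonempty := by
        intro s
        obtain ⟨k, hk⟩ := Finset.card_ne_zero.1 (hcon s)
        rw [Finset.mem_filter, Finset.mem_range] at hk
        refine ⟨dec k, ?_⟩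
        show Bad G ev q x s (enc (dec k) s)
        rw [enc_dec hk.1]; exact hk.2
      have := IsCompact.nonempty_iInter_of_sequence_nonempty_isCompact_isClosed
        (fun s => {X : ℕ → Bool | Bad G ev q x s (enc X s)})
        (fun s X hX => bad_anti hm (Nat.le_succ s) hX) hne
        ((isClosed_encset 0 _).isCompact) (fun s => isClosed_encset s _)
      rw [iInter_bad hm, hd x] at this
      exact Set.not_nonempty_empty this
    obtain ⟨g, hg, h⟩ := RecT.search hp (by
      intro a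
      obtain ⟨s, hs⟩ := hex0 a
      exact ⟨s, by simpa using hs⟩)
    refine ⟨q, hq, ‹_›, subset_rfl, ?_⟩
    intro X hX
    refine Or.inr ⟨g, hg, fun x => ?_⟩
    have h1 := h x
    simp only [Nat.unpair_pair] at h1
    rw [Finset.card_eq_zero, Finset.filter_eq_empty_iff] at h1
    have h2 := h1 (Finset.mem_range.2 (enc_lt X (g x)))
    rw [bad_enc] at h2
    have h3 : ∀ n < g x + 1, ¬ q (Nat.pair n (enc X n)) := fun n _ => hX n
    have h4 := not_and_not_right.1 h2 h3
    obtain ⟨y, hy, h5⟩ := h4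
    exact ⟨y, hy, g x, h5⟩

theorem step_random {O : Set (ℕ →. ℕ)} {G : ℕ → ℕ} (hG : RecT O G) {ev : List ℕ → ℕ → Option ℕ}
    (hev : Computable₂ ev) (hm : Mono ev) {q : ℕ → Prop} (hq : RP O q) (hpos : 0 < cm (Cl q)) :
    ∃ q' : ℕ → Prop, RP O q' ∧ 0 < cm (Cl q') ∧ Cl q' ⊆ Cl q ∧ Cl q' ⊆ Good O G ev := by
  by_cases hd : ∃ x, 0 < cm (Div G ev q x)
  · obtain ⟨x, hx⟩ := hd
    obtain ⟨q', h1, h2⟩ := div_cl hG hev hq x
    rw [← h2] at hx
    refine ⟨q', h1, hx, ?_, ?_⟩
    · rw [h2]; exact fun X hX => hX.1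
    · rw [h2]; exact fun X hX => Or.inl ⟨x, hX.2⟩
  · push Not at hd
    obtain ⟨j, hj⟩ : ∃ j : ℕ, ((1:ℝ)/2)^j < cm.real (Cl q) := by
      have : 0 < cm.real (Cl q) := ENNReal.toReal_pos hpos.ne' (measure_ne_top _ _)
      exact exists_pow_lt_of_lt_one this (by norm_num)
    have hex : ∀ x, ∃ s, ((Finset.range (2^s)).filter (fun k => Bad G ev q x s k)).card *
      2^(j+x+1) < 2^s := by
      intro x
      have hlim : Tendsto (fun s => cm.real {X : ℕ → Bool | Bad G ev q x s (enc X s)}) atTop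
          (𝓝 0) := by
        have h1 := tendsto_measure_iInter_atTop (μ := cm)
          (s := fun s => {X : ℕ → Bool | Bad G ev q x s (enc X s)})
          (fun s => (meas_encset s _).nullMeasurableSet)
          (fun s t hst X hX => bad_anti hm hst hX) ⟨0, measure_ne_top _ _⟩
        rw [iInter_bad hm, nonpos_iff_eq_zero.1 (hd x)] at h1
        have h2 := (ENNReal.tendsto_toReal (ENNReal.zero_ne_top)).comp h1
        simpa [Measure.real, Function.comp_def] using h2
      have hpos2 : (0:ℝ) < (1/2)^(j+x+1) := by positivity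
      obtain ⟨s, hs⟩ := (hlim.eventually (gt_mem_nhds hpos2)).exists
      refine ⟨s, ?_⟩
      rw [cm_encset_real s (fun k => Bad G ev q x s k), div_lt_iff₀ (by positivity)] at hs
      have h3 : (((Finset.range (2^s)).filter (fun k => Bad G ev q x s k)).card : ℝ) *
          2^(j+x+1) < 2^s := by
        have h0 : (0:ℝ) < 2^(j+x+1) := by positivity
        refine lt_of_lt_of_eq (mul_lt_mul_of_pos_right hs h0) ?_
        rw [mul_right_comm, ← mul_pow]; norm_num
      exact_mod_cast h3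
    obtain ⟨g, hg, h⟩ := bound_fun hG hev hq j hex
    let q' : ℕ → Prop := fun z => q z ∨ ∃ x < z.unpair.1 + 1, g x ≤ z.unpair.1 ∧
      ¬ ∃ y ≤ g x, ev (seg G (g x) (z.unpair.2 % 2^(g x))) x = some y
    have hq' : RP O q' := by
      refine RP.or hq ?_
      have hgw : RecT O (fun w => g w.unpair.2) := RecT.comp hg (RecT.snd recT_id)
      have h1 : RP O (fun w => g w.unpair.2 ≤ w.unpair.1.unpair.1 ∧
          ¬ ∃ y ≤ g w.unpair.2, ev (seg G (g w.unpair.2)
            (w.unpair.1.unpair.2 % 2^(g w.unpair.2))) w.unpair.2 = some y) :=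
        RP.and (RP.le hgw (RecT.fst (RecT.fst recT_id)))
          (RP.not (rp_ev hG hev hgw (RecT.mod (RecT.snd (RecT.fst recT_id))
            (RecT.twopow hgw)) (RecT.snd recT_id) hgw))
      refine RP.congr (RP.bex h1 (RecT.add (RecT.fst recT_id) (recT_const 1))) ?_
      intro z
      simp
    have hkey : ∀ X, X ∈ Cl q' ↔ X ∈ Cl q ∧ ∀ x, ∃ y ≤ g x, ev (pre (J G X) (g x)) x = some y := by
      intro X
      constructor
      · intro hX
        refine ⟨fun n hn => hX n (Or.inl hn), fun x => ?_⟩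
        by_contra hcon
        refine hX (max x (g x)) (Or.inr ⟨x, ?_, ?_, ?_⟩)
        · simp only [Nat.unpair_pair]
          have := le_max_left x (g x)
          omega
        · simp only [Nat.unpair_pair]
          exact le_max_right x (g x)
        · simp only [Nat.unpair_pair]
          rw [enc_mod X (le_max_right _ _), seg_enc]
          exact hcon
      · rintro ⟨h1, h2⟩ n (hn | ⟨x, _, hx2, hx3⟩)
        · exact h1 n hn
        · simp only [Nat.unpair_pair] at hx2 hx3
          rw [enc_mod X hx2, seg_enc] at hx3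
          exact hx3 (h2 x)
    have hsub : Cl q ⊆ Cl q' ∪ ⋃ x, {X : ℕ → Bool | Bad G ev q x (g x) (enc X (g x))} := by
      intro X hX
      by_cases h1 : X ∈ Cl q'
      · exact Or.inl h1
      · right
        rw [hkey] at h1
        push Not at h1
        obtain ⟨x, hx⟩ := h1 hX
        rw [Set.mem_iUnion]
        refine ⟨x, ?_⟩
        show Bad G ev q x (g x) (enc X (g x))
        rw [bad_enc]
        refine ⟨fun n _ => hX n, ?_⟩
        rintro ⟨y, hy, h2⟩
        exact hx y hy h2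
    have hbd : ∀ x, cm {X : ℕ → Bool | Bad G ev q x (g x) (enc X (g x))} ≤
        ENNReal.ofReal ((1/2)^(j+x+1)) := by
      intro x
      have h1 : cm.real {X : ℕ → Bool | Bad G ev q x (g x) (enc X (g x))} ≤ (1/2)^(j+x+1) := by
        rw [cm_encset_real (g x) (fun k => Bad G ev q x (g x) k), div_le_iff₀ (by positivity)]
        have h2 : (((Finset.range (2^(g x))).filter (fun k => Bad G ev q x (g x) k)).card : ℝ) *
          2^(j+x+1) < 2^(g x) := by exact_mod_cast h x
        have h3 : (0:ℝ) < 2^(j+x+1) := by positivity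
        rw [one_div, inv_pow, inv_mul_eq_div, le_div_iff₀ h3]
        exact h2.le
      rw [← ENNReal.ofReal_toReal (measure_ne_top cm _)]
      exact ENNReal.ofReal_le_ofReal h1
    have hsum : ∑' x, ENNReal.ofReal ((1/2:ℝ)^(j+x+1)) = ENNReal.ofReal ((1/2)^j) := by
      rw [← ENNReal.ofReal_tsum_of_nonneg (fun x => by positivity)]
      · congr 1
        have : ∀ x : ℕ, ((1:ℝ)/2)^(j+x+1) = ((1/2)^j * (1/2)) * (1/2)^x := by
          intro x; rw [pow_succ, pow_add]; ring
        simp_rw [this]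
        rw [tsum_mul_left, tsum_geometric_two]
        ring
      · have : ∀ x : ℕ, ((1:ℝ)/2)^(j+x+1) = ((1/2)^j * (1/2)) * (1/2)^x := by
          intro x; rw [pow_succ, pow_add]; ring
        simp_rw [this]
        exact (summable_geometric_two).mul_left _
    refine ⟨q', hq', ?_, fun X hX => ((hkey X).1 hX).1, ?_⟩
    · by_contra h0
      have h0' : cm (Cl q') = 0 := by simpa using h0
      have h1 : cm (Cl q) ≤ ENNReal.ofReal ((1/2)^j) := by
        calc cm (Cl q) ≤ cm (Cl q' ∪ ⋃ x, {X : ℕ → Bool | Bad G ev q x (g x) (enc X (g x))}) :=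
              measure_mono hsub
          _ ≤ cm (Cl q') + cm (⋃ x, {X : ℕ → Bool | Bad G ev q x (g x) (enc X (g x))}) :=
              measure_union_le _ _
          _ ≤ 0 + ∑' x, cm {X : ℕ → Bool | Bad G ev q x (g x) (enc X (g x))} := by
              rw [h0']; exact add_le_add le_rfl (measure_iUnion_le _)
          _ ≤ 0 + ∑' x, ENNReal.ofReal ((1/2:ℝ)^(j+x+1)) :=
              add_le_add le_rfl (ENNReal.tsum_le_tsum hbd)
          _ = ENNReal.ofReal ((1/2)^j) := by rw [hsum, zero_add]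
      have h2 : cm.real (Cl q) ≤ (1/2)^j := by
        unfold Measure.real
        refine (ENNReal.toReal_mono ENNReal.ofReal_ne_top h1).trans ?_
        rw [ENNReal.toReal_ofReal (by positivity)]
      linarith
    · intro X hX
      refine Or.inr ⟨g, hg, fun x => ?_⟩
      obtain ⟨y, hy, h1⟩ := ((hkey X).1 hX).2 x
      exact ⟨y, hy, g x, h1⟩

end Pool.Agent.H166R3.HD
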